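import Pool.Agent.Lib.MP_c82047_co18.Seven.ALG4

/-!
# Module ALG: the algebraic inequality
-/

namespace Pool.Agent.Lib.MP_c82047_co18.Seven

open Finset

section ALG

variable {V : Type} [Fintype V]

private theorem alg_star (u : V → ℝ) :
    ∑ x, ∑ y, ∑ z, (u x * u y * (1 - u z) + u x * u z * (1 - u y) + u y * u z * (1 - u x)) =
      3 * ((∑ x, u x) ^ 2 * ((Fintype.card V : ℝ) - ∑ x, u x)) := by
  have e : ∀ x y z, u x * u y * (1 - u z) + u x * u z * (1 - u y) + u y * u z * (1 - u x) =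
      u x * u y + u x * u z + u y * u z - 3 * (u x * u y * u z) := fun x y z => by ring
  simp only [e, Finset.sum_add_distrib, Finset.sum_sub_distrib, Finset.sum_const, card_univ,
    nsmul_eq_mul, ← Finset.mul_sum, ← Finset.sum_mul]
  ring

private theorem alg_one (g : V → V → ℝ) (hs : ∀ x y, g x y = g y x) :
    ∑ x, ∑ y, ∑ z, (g x y * g x z + g x y * g y z + g x z * g y z) =
      3 * ∑ x, (∑ y, g x y) ^ 2 := by
  have e1 : ∑ x, ∑ y, ∑ z, g x y * g x z = ∑ x, (∑ y, g x y) ^ 2 := by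
    refine Finset.sum_congr rfl fun x _ => ?_
    rw [sq, Finset.sum_mul_sum]
  have e2 : ∑ x, ∑ y, ∑ z, g x y * g y z = ∑ x, (∑ y, g x y) ^ 2 := by
    rw [Finset.sum_comm]
    refine Finset.sum_congr rfl fun x _ => ?_
    rw [sq, Finset.sum_mul_sum]
    exact Finset.sum_congr rfl fun y _ => Finset.sum_congr rfl fun z _ => by rw [hs y x]
  have e3 : ∑ x, ∑ y, ∑ z, g x z * g y z = ∑ x, (∑ y, g x y) ^ 2 := by
    have : ∀ x, ∑ y, ∑ z, g x z * g y z = ∑ z, ∑ y, g x z * g y z := fun x => Finset.sum_comm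
    simp only [this]
    rw [Finset.sum_comm]
    refine Finset.sum_congr rfl fun x _ => ?_
    rw [sq, Finset.sum_mul_sum]
    exact Finset.sum_congr rfl fun y _ => Finset.sum_congr rfl fun z _ => by rw [hs y x, hs z x]
  simp only [Finset.sum_add_distrib]
  rw [e1, e2, e3]
  ring

/-- The two-coincidence function of three probability vectors. -/
private def ptwo (a b c : Fin 3 → ℝ) : ℝ :=
  ∑ i, (a i * b i * (1 - c i) + a i * c i * (1 - b i) + b i * c i * (1 - a i))

theorem alg (h : Fin 3 → V → V → ℝ) (h0 : ∀ i x y, 0 ≤ h i x y) (hs : ∀ i x y, h i x y = h i y x)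
    (h1 : ∀ x y, ∑ i, h i x y = 1) :
    (10 / 9) * (Fintype.card V : ℝ) ^ 3 ≤
      ∑ i, (5 * ∑ x, (∑ y, h i x y) ^ 2 - 2 * ∑ x, ∑ y, ∑ z, h i x y * h i x z * h i y z) := by
  set n : ℝ := (Fintype.card V : ℝ) with hn
  set D : Fin 3 → V → ℝ := fun i x => ∑ y, h i x y with hD
  set G : V → V → V → ℝ := fun x y z => ptwo (fun i => h i x y) (fun i => h i x z)
    (fun i => h i y z) with hG
  set S : ℝ := ∑ i, ∑ x, (D i x) ^ 2 with hS
  set T3 : ℝ := ∑ i, ∑ x, ∑ y, ∑ z, h i x y * h i x z * h i y z with hT3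
  set T2 : ℝ := ∑ x, ∑ y, ∑ z, G x y z with hT2
  have hn0 : 0 ≤ n := Nat.cast_nonneg _
  -- the total degree
  have hDn : ∀ x, ∑ i, D i x = n := by
    intro x
    rw [hD, Finset.sum_comm]
    simp only [h1, Finset.sum_const, card_univ, nsmul_eq_mul, mul_one]
    rfl
  have hD0 : ∀ i x, 0 ≤ D i x := fun i x => Finset.sum_nonneg fun y _ => h0 i x y
  -- the first identity
  have id1 : 3 * S = 3 * T3 + T2 := by
    have e2 : T2 = ∑ i, ∑ x, ∑ y, ∑ z, (h i x y * h i x z * (1 - h i y z) +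
        h i x y * h i y z * (1 - h i x z) + h i x z * h i y z * (1 - h i x y)) := by
      rw [hT2]
      simp only [hG, ptwo]
      have s1 : ∀ x y, ∑ z, ∑ i, (h i x y * h i x z * (1 - h i y z) +
        h i x y * h i y z * (1 - h i x z) + h i x z * h i y z * (1 - h i x y)) =
        ∑ i, ∑ z, (h i x y * h i x z * (1 - h i y z) +
        h i x y * h i y z * (1 - h i x z) + h i x z * h i y z * (1 - h i x y)) :=
        fun x y => Finset.sum_comm
      simp only [s1]
      have s2 : ∀ x, ∑ y, ∑ i, ∑ z, (h i x y * h i x z * (1 - h i y z) +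
        h i x y * h i y z * (1 - h i x z) + h i x z * h i y z * (1 - h i x y)) =
        ∑ i, ∑ y, ∑ z, (h i x y * h i x z * (1 - h i y z) +
        h i x y * h i y z * (1 - h i x z) + h i x z * h i y z * (1 - h i x y)) :=
        fun x => Finset.sum_comm
      simp only [s2]
      exact Finset.sum_comm
    rw [e2, hS, hT3, Finset.mul_sum, Finset.mul_sum, ← Finset.sum_add_distrib]
    refine Finset.sum_congr rfl fun i _ => ?_
    rw [← alg_one (h i) (hs i), Finset.mul_sum, ← Finset.sum_add_distrib]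
    refine Finset.sum_congr rfl fun x _ => ?_
    rw [Finset.mul_sum, ← Finset.sum_add_distrib]
    refine Finset.sum_congr rfl fun y _ => ?_
    rw [Finset.mul_sum, ← Finset.sum_add_distrib]
    refine Finset.sum_congr rfl fun z _ => ?_
    ring
  -- the four point inequality
  have fp : ∀ w x y z, ptwo (fun i => h i w x) (fun i => h i w y) (fun i => h i w z) ≤
      G w x y + G w x z + G w y z + G x y z := by
    intro w x y z
    exact four_point (fun i => h i w x) (fun i => h i w y) (fun i => h i w z) (fun i => h i x y)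
      (fun i => h i x z) (fun i => h i y z) (fun i => h0 _ _ _) (fun i => h0 _ _ _)
      (fun i => h0 _ _ _) (fun i => h0 _ _ _) (fun i => h0 _ _ _) (fun i => h0 _ _ _) (h1 _ _)
      (h1 _ _) (h1 _ _) (h1 _ _) (h1 _ _) (h1 _ _)
  have hstar : ∑ w, ∑ x, ∑ y, ∑ z, ptwo (fun i => h i w x) (fun i => h i w y)
      (fun i => h i w z) = ∑ w, ∑ i, 3 * ((D i w) ^ 2 * (n - D i w)) := by
    refine Finset.sum_congr rfl fun w _ => ?_
    have s0 : ∑ i, 3 * ((D i w) ^ 2 * (n - D i w)) = ∑ i, ∑ x, ∑ y, ∑ z,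
        (h i w x * h i w y * (1 - h i w z) + h i w x * h i w z * (1 - h i w y) +
          h i w y * h i w z * (1 - h i w x)) :=
      Finset.sum_congr rfl fun i _ => (alg_star (h i w)).symm
    rw [s0]
    simp only [ptwo]
    have s1 : ∀ x y, ∑ z, ∑ i, (h i w x * h i w y * (1 - h i w z) +
        h i w x * h i w z * (1 - h i w y) + h i w y * h i w z * (1 - h i w x)) =
        ∑ i, ∑ z, (h i w x * h i w y * (1 - h i w z) +
        h i w x * h i w z * (1 - h i w y) + h i w y * h i w z * (1 - h i w x)) :=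
        fun x y => Finset.sum_comm
    simp only [s1]
    have s2 : ∀ x, ∑ y, ∑ i, ∑ z, (h i w x * h i w y * (1 - h i w z) +
        h i w x * h i w z * (1 - h i w y) + h i w y * h i w z * (1 - h i w x)) =
        ∑ i, ∑ y, ∑ z, (h i w x * h i w y * (1 - h i w z) +
        h i w x * h i w z * (1 - h i w y) + h i w y * h i w z * (1 - h i w x)) :=
        fun x => Finset.sum_comm
    simp only [s2]
    exact Finset.sum_comm
  have hsum : ∑ w, ∑ x, ∑ y, ∑ z, (G w x y + G w x z + G w y z + G x y z) = 4 * (n * T2) := by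
    have g1 : ∑ w, ∑ x, ∑ y, ∑ _z : V, G w x y = n * T2 := by
      simp only [Finset.sum_const, card_univ, nsmul_eq_mul, ← Finset.mul_sum]
      rfl
    have g2 : ∑ w, ∑ x, ∑ _y : V, ∑ z, G w x z = n * T2 := by
      simp only [Finset.sum_const, card_univ, nsmul_eq_mul, ← Finset.mul_sum]
      rfl
    have g3 : ∑ w, ∑ _x : V, ∑ y, ∑ z, G w y z = n * T2 := by
      simp only [Finset.sum_const, card_univ, nsmul_eq_mul, ← Finset.mul_sum]
      rfl
    have g4 : ∑ _w : V, ∑ x, ∑ y, ∑ z, G x y z = n * T2 := by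
      simp only [Finset.sum_const, card_univ, nsmul_eq_mul]
      rfl
    simp only [Finset.sum_add_distrib]
    rw [g1, g2, g3, g4]
    ring
  have key : ∑ w, ∑ i, 3 * ((D i w) ^ 2 * (n - D i w)) ≤ 4 * (n * T2) := by
    rw [← hstar, ← hsum]
    exact Finset.sum_le_sum fun w _ => Finset.sum_le_sum fun x _ => Finset.sum_le_sum fun y _ =>
      Finset.sum_le_sum fun z _ => fp w x y z
  -- the right side
  have rhs : ∑ i, (5 * ∑ x, (∑ y, h i x y) ^ 2 - 2 * ∑ x, ∑ y, ∑ z, h i x y * h i x z * h i y z) =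
      5 * S - 2 * T3 := by
    rw [Finset.sum_sub_distrib, ← Finset.mul_sum, ← Finset.mul_sum]
  rw [rhs]
  rcases hn0.eq_or_lt with hz | hpos
  · -- no points
    have : IsEmpty V := by
      rw [← Fintype.card_eq_zero_iff]
      have hz' : (Fintype.card V : ℝ) = 0 := hz.symm
      exact_mod_cast hz'
    have hS0 : S = 0 := by
      rw [hS]
      simp
    have hT0 : T3 = 0 := by
      rw [hT3]
      simp
    rw [hS0, hT0, ← hz]
    norm_num
  -- convexity
  have hconv : ∀ x, 20 / 9 * n ^ 3 ≤ ∑ i, (6 * n * (D i x) ^ 2 + (D i x) ^ 2 * (n - D i x)) := by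
    intro x
    have hle : ∀ i, D i x ≤ n := by
      intro i
      rw [← hDn x]
      exact Finset.single_le_sum (f := fun i => D i x) (fun j _ => hD0 j x) (Finset.mem_univ i)
    have tang : ∀ a : ℝ, 0 ≤ a → a ≤ n →
        20 / 27 * n ^ 3 + 13 / 3 * n ^ 2 * (a - n / 3) ≤ 6 * n * a ^ 2 + a ^ 2 * (n - a) := by
      intro a ha0 ha
      have : 6 * n * a ^ 2 + a ^ 2 * (n - a) - (20 / 27 * n ^ 3 + 13 / 3 * n ^ 2 * (a - n / 3)) =
          (a - n / 3) ^ 2 * (19 / 3 * n - a) := by ring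
      have h2 : 0 ≤ (a - n / 3) ^ 2 * (19 / 3 * n - a) :=
        mul_nonneg (sq_nonneg _) (by linarith)
      linarith
    have t0 := tang (D 0 x) (hD0 0 x) (hle 0)
    have t1 := tang (D 1 x) (hD0 1 x) (hle 1)
    have t2 := tang (D 2 x) (hD0 2 x) (hle 2)
    have hd := hDn x
    simp only [Fin.sum_univ_three] at hd ⊢
    have e : 13 / 3 * n ^ 2 * (D 0 x - n / 3) + 13 / 3 * n ^ 2 * (D 1 x - n / 3) +
        13 / 3 * n ^ 2 * (D 2 x - n / 3) = 0 := by
      linear_combination (13 / 3 * n ^ 2) * hd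
    linarith
  have hconv' : n * (20 / 9 * n ^ 3) ≤
      ∑ x, ∑ i, (6 * n * (D i x) ^ 2 + (D i x) ^ 2 * (n - D i x)) := by
    have := Finset.sum_le_sum fun x (_ : x ∈ (Finset.univ : Finset V)) => hconv x
    rwa [Finset.sum_const, card_univ, nsmul_eq_mul] at this
  have e5 : ∑ x, ∑ i, (6 * n * (D i x) ^ 2 + (D i x) ^ 2 * (n - D i x)) =
      6 * n * S + ∑ x, ∑ i, ((D i x) ^ 2 * (n - D i x)) := by
    simp only [Finset.sum_add_distrib, ← Finset.mul_sum]
    rw [Finset.sum_comm]
  have e6 : ∑ w, ∑ i, 3 * ((D i w) ^ 2 * (n - D i w)) =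
      3 * ∑ x, ∑ i, ((D i x) ^ 2 * (n - D i x)) := by
    simp only [← Finset.mul_sum]
  rw [e5] at hconv'
  rw [e6] at key
  have fin : n * (20 / 9 * n ^ 3) ≤ n * (2 * (5 * S - 2 * T3)) := by
    have : T3 = S - T2 / 3 := by linarith
    rw [this]
    nlinarith
  have := le_of_mul_le_mul_left fin hpos
  linarith

end ALG

end Pool.Agent.Lib.MP_c82047_co18.Seven
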