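import Pool.Agent.Lib.MP_c82047_co18.Seven.Defs

/-!
# Module ALG4: the four-point inequality
-/

namespace Pool.Agent.Lib.MP_c82047_co18.Seven

open Finset

/-- Exactly two of the three colours are equal. -/
private def two (i j l : Fin 3) : ℝ :=
  if (i = j ∧ j ≠ l) ∨ (i = l ∧ l ≠ j) ∨ (j = l ∧ l ≠ i) then 1 else 0

private theorem two_nonneg (i j l : Fin 3) : 0 ≤ two i j l := by
  unfold two
  split_ifs <;> norm_num

private theorem two_eq (u v w : Fin 3 → ℝ) (hu : ∑ i, u i = 1) (hv : ∑ i, v i = 1)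
    (hw : ∑ i, w i = 1) :
    (∑ i, (u i * v i * (1 - w i) + u i * w i * (1 - v i) + v i * w i * (1 - u i))) =
      ∑ i, ∑ j, ∑ l, u i * v j * w l * two i j l := by
  simp only [Fin.sum_univ_three] at hu hv hw ⊢
  simp [two]
  linear_combination (-(u 0 * v 0 + u 1 * v 1 + u 2 * v 2)) * hw +
    (-(u 0 * w 0 + u 1 * w 1 + u 2 * w 2)) * hv + (-(v 0 * w 0 + v 1 * w 1 + v 2 * w 2)) * hu

private theorem expand (a b c : Fin 3 → ℝ) (P Q R : Fin 3 → Fin 3 → ℝ) (W : ℝ)
    (ha1 : ∑ i, a i = 1) (hb1 : ∑ i, b i = 1) (hc1 : ∑ i, c i = 1) :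
    ∑ i, ∑ j, ∑ l, a i * b j * c l * (P i j + Q i l + R j l + W) =
      ∑ i, ∑ j, a i * b j * P i j + ∑ i, ∑ l, a i * c l * Q i l + ∑ j, ∑ l, b j * c l * R j l +
        W := by
  have e1 : ∑ i, ∑ j, ∑ l, a i * b j * c l * P i j = ∑ i, ∑ j, a i * b j * P i j := by
    refine Finset.sum_congr rfl fun i _ => Finset.sum_congr rfl fun j _ => ?_
    rw [← Finset.sum_mul, ← Finset.mul_sum, hc1, mul_one]
  have e2 : ∑ i, ∑ j, ∑ l, a i * b j * c l * Q i l = ∑ i, ∑ l, a i * c l * Q i l := by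
    refine Finset.sum_congr rfl fun i _ => ?_
    rw [Finset.sum_comm]
    refine Finset.sum_congr rfl fun l _ => ?_
    have : ∀ j, a i * b j * c l * Q i l = b j * (a i * c l * Q i l) := fun j => by ring
    simp only [this]
    rw [← Finset.sum_mul, hb1, one_mul]
  have e3 : ∑ i, ∑ j, ∑ l, a i * b j * c l * R j l = ∑ j, ∑ l, b j * c l * R j l := by
    have : ∀ i, ∑ j, ∑ l, a i * b j * c l * R j l = a i * ∑ j, ∑ l, b j * c l * R j l := by
      intro i
      rw [Finset.mul_sum]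
      refine Finset.sum_congr rfl fun j _ => ?_
      rw [Finset.mul_sum]
      exact Finset.sum_congr rfl fun l _ => by ring
    simp only [this]
    rw [← Finset.sum_mul, ha1, one_mul]
  have e4 : ∑ i, ∑ j, ∑ l, a i * b j * c l * W = W := by
    have : ∀ i j, ∑ l, a i * b j * c l * W = a i * b j * W := by
      intro i j
      rw [← Finset.sum_mul, ← Finset.mul_sum, hc1, mul_one]
    simp only [this]
    have : ∀ i, ∑ j, a i * b j * W = a i * W := by
      intro i
      rw [← Finset.sum_mul, ← Finset.mul_sum, hb1, mul_one]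
    simp only [this]
    rw [← Finset.sum_mul, ha1, one_mul]
  simp only [mul_add, Finset.sum_add_distrib]
  rw [e1, e2, e3, e4]

private theorem three_le {x y z : ℝ} (hx : x ≤ 1) (hy : y ≤ 1)
    (hz0 : 0 ≤ z) (hz : z ≤ 1) : x + y + z - 2 ≤ x * y * z := by
  nlinarith [mul_nonneg (sub_nonneg.2 hx) (sub_nonneg.2 (mul_le_one₀ hy hz0 hz)),
    mul_nonneg (sub_nonneg.2 hy) (sub_nonneg.2 hz)]

/-- the four-point inequality -/
theorem four_point (a b c p q r : Fin 3 → ℝ) (ha : ∀ i, 0 ≤ a i) (hb : ∀ i, 0 ≤ b i)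
    (hc : ∀ i, 0 ≤ c i) (hp : ∀ i, 0 ≤ p i) (hq : ∀ i, 0 ≤ q i) (hr : ∀ i, 0 ≤ r i)
    (ha1 : ∑ i, a i = 1) (hb1 : ∑ i, b i = 1) (hc1 : ∑ i, c i = 1) (hp1 : ∑ i, p i = 1)
    (hq1 : ∑ i, q i = 1) (hr1 : ∑ i, r i = 1) :
    (∑ i, (a i * b i * (1 - c i) + a i * c i * (1 - b i) + b i * c i * (1 - a i)))
      ≤ (∑ i, (a i * b i * (1 - p i) + a i * p i * (1 - b i) + b i * p i * (1 - a i)))
      + (∑ i, (a i * c i * (1 - q i) + a i * q i * (1 - c i) + c i * q i * (1 - a i)))
      + (∑ i, (b i * c i * (1 - r i) + b i * r i * (1 - c i) + c i * r i * (1 - b i)))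
      + (∑ i, (p i * q i * (1 - r i) + p i * r i * (1 - q i) + q i * r i * (1 - p i))) := by
  rw [two_eq a b c ha1 hb1 hc1, two_eq a b p ha1 hb1 hp1, two_eq a c q ha1 hc1 hq1,
    two_eq b c r hb1 hc1 hr1, two_eq p q r hp1 hq1 hr1]
  set W := ∑ i, ∑ j, ∑ l, p i * q j * r l * two i j l with hW
  have hle : ∀ (s : Fin 3 → ℝ), (∀ i, 0 ≤ s i) → ∑ i, s i = 1 → ∀ i, s i ≤ 1 := by
    intro s hs h1 i
    rw [← h1]
    exact Finset.single_le_sum (f := s) (fun j _ => hs j) (Finset.mem_univ i)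
  have hpos : ∀ x y z, 0 ≤ p x * q y * r z * two x y z := fun x y z =>
    mul_nonneg (mul_nonneg (mul_nonneg (hp x) (hq y)) (hr z)) (two_nonneg x y z)
  have hW0 : 0 ≤ W := Finset.sum_nonneg fun x _ => Finset.sum_nonneg fun y _ =>
    Finset.sum_nonneg fun z _ => hpos x y z
  have hT : ∀ x y z, two x y z = 1 → p x + q y + r z - 2 ≤ W := by
    intro x y z h
    refine (three_le (hle p hp hp1 x) (hle q hq hq1 y) (hr z)
      (hle r hr hr1 z)).trans ?_
    have h1 : p x * q y * r z ≤ ∑ l, p x * q y * r l * two x y l := by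
      have := Finset.single_le_sum (f := fun l => p x * q y * r l * two x y l)
        (fun l _ => hpos x y l) (Finset.mem_univ z)
      simpa [h] using this
    have h2 : ∑ l, p x * q y * r l * two x y l ≤ ∑ j, ∑ l, p x * q j * r l * two x j l :=
      Finset.single_le_sum (f := fun j => ∑ l, p x * q j * r l * two x j l)
        (fun j _ => Finset.sum_nonneg fun l _ => hpos x j l) (Finset.mem_univ y)
    have h3 : ∑ j, ∑ l, p x * q j * r l * two x j l ≤ W :=
      Finset.single_le_sum (f := fun i => ∑ j, ∑ l, p i * q j * r l * two i j l)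
        (fun i _ => Finset.sum_nonneg fun j _ => Finset.sum_nonneg fun l _ => hpos i j l)
        (Finset.mem_univ x)
    exact h1.trans (h2.trans h3)
  have hbr : ∀ i j l, two i j l ≤ (∑ m, p m * two i j m) + (∑ m, q m * two i l m) +
      (∑ m, r m * two j l m) + W := by
    intro i j l
    have hp' := hp1
    have hq' := hq1
    have hr' := hr1
    simp only [Fin.sum_univ_three] at hp' hq' hr' ⊢
    have a0 := hp 0
    have a1 := hp 1
    have a2 := hp 2
    have b0 := hq 0
    have b1 := hq 1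
    have b2 := hq 2
    have c0 := hr 0
    have c1 := hr 1
    have c2 := hr 2
    have t1 := hT 0 1 1 (by simp [two])
    have t2 := hT 0 2 2 (by simp [two])
    have t3 := hT 1 0 0 (by simp [two])
    have t4 := hT 1 2 2 (by simp [two])
    have t5 := hT 2 0 0 (by simp [two])
    have t6 := hT 2 1 1 (by simp [two])
    have t7 := hT 1 0 1 (by simp [two])
    have t8 := hT 2 0 2 (by simp [two])
    have t9 := hT 0 1 0 (by simp [two])
    have t10 := hT 2 1 2 (by simp [two])
    have t11 := hT 0 2 0 (by simp [two])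
    have t12 := hT 1 2 1 (by simp [two])
    have t13 := hT 1 1 0 (by simp [two])
    have t14 := hT 2 2 0 (by simp [two])
    have t15 := hT 0 0 1 (by simp [two])
    have t16 := hT 2 2 1 (by simp [two])
    have t17 := hT 0 0 2 (by simp [two])
    have t18 := hT 1 1 2 (by simp [two])
    fin_cases i <;> fin_cases j <;> fin_cases l <;> simp [two] <;> linarith
  have h1 : ∑ i, ∑ j, ∑ l, a i * b j * c l * two i j l ≤
      ∑ i, ∑ j, ∑ l, a i * b j * c l * ((∑ m, p m * two i j m) + (∑ m, q m * two i l m) +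
      (∑ m, r m * two j l m) + W) :=
    Finset.sum_le_sum fun i _ => Finset.sum_le_sum fun j _ => Finset.sum_le_sum fun l _ =>
      mul_le_mul_of_nonneg_left (hbr i j l) (mul_nonneg (mul_nonneg (ha i) (hb j)) (hc l))
  refine h1.trans (le_of_eq ?_)
  rw [expand a b c _ _ _ W ha1 hb1 hc1]
  have e : ∀ x y z : Fin 3 → ℝ, ∑ i, ∑ j, x i * y j * ∑ m, z m * two i j m =
      ∑ i, ∑ j, ∑ m, x i * y j * z m * two i j m := by
    intro x y z
    refine Finset.sum_congr rfl fun i _ => Finset.sum_congr rfl fun j _ => ?_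
    rw [Finset.mul_sum]
    exact Finset.sum_congr rfl fun m _ => by ring
  rw [e, e, e]

end Pool.Agent.Lib.MP_c82047_co18.Seven
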