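import Pool.Agent.Lib.MP_c82047_co18.Seven.Defs

/-!
# Finite conditional expectations
-/

namespace Pool.Agent.Lib.MP_c82047_co18.Seven

open Finset

section CE

variable {α ι κ : Type*} [DecidableEq ι] [DecidableEq κ]

theorem ce_nonneg (S : Finset α) (c : α → ι) (F : α → ℝ) (hF : ∀ s ∈ S, 0 ≤ F s) (s : α) :
    0 ≤ ce S c F s :=
  div_nonneg (sum_nonneg fun u hu => hF u (mem_filter.1 hu).1) (Nat.cast_nonneg _)

theorem ce_le_one (S : Finset α) (c : α → ι) (F : α → ℝ) (hF : ∀ s ∈ S, F s ≤ 1) (s : α) :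
    ce S c F s ≤ 1 := by
  unfold ce
  refine div_le_one_of_le₀ ?_ (Nat.cast_nonneg _)
  calc ∑ u ∈ S.filter (fun u => c u = c s), F u
      ≤ ∑ _u ∈ S.filter (fun u => c u = c s), (1 : ℝ) :=
        sum_le_sum fun u hu => hF u (mem_filter.1 hu).1
    _ = _ := by simp

/-- the average is constant on cells -/
theorem ce_congr (S : Finset α) (c : α → ι) (F : α → ℝ) {s u : α} (h : c s = c u) :
    ce S c F s = ce S c F u := by
  unfold ce
  rw [h]

theorem ce_sub (S : Finset α) (c : α → ι) (F G : α → ℝ) (s : α) :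
    ce S c (fun u => F u - G u) s = ce S c F s - ce S c G s := by
  unfold ce
  rw [sum_sub_distrib, sub_div]

theorem ce_sum {β : Type*} (T : Finset β) (S : Finset α) (c : α → ι) (F : β → α → ℝ) (w : β → ℝ)
    (s : α) : ce S c (fun u => ∑ t ∈ T, F t u * w t) s = ∑ t ∈ T, ce S c (F t) s * w t := by
  unfold ce
  rw [sum_comm, sum_div]
  refine sum_congr rfl fun t _ => ?_
  rw [← sum_mul]
  ring

/-- the average is an orthogonal projection: it may be moved to the other factor -/
theorem ce_adj (S : Finset α) (c : α → ι) (F G : α → ℝ) :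
    ∑ s ∈ S, ce S c F s * G s = ∑ s ∈ S, F s * ce S c G s := by
  have h : ∀ F G : α → ℝ, ∑ s ∈ S, ce S c F s * G s = ∑ s ∈ S, ∑ u ∈ S,
      (if c u = c s then F u * G s / ((S.filter (fun v => c v = c s)).card : ℝ) else 0) := by
    intro F G
    refine sum_congr rfl fun s _ => ?_
    unfold ce
    rw [sum_div, sum_mul, sum_filter]
    refine sum_congr rfl fun u _ => ?_
    split_ifs
    · ring
    · rfl
  rw [h F G, sum_comm]
  have h' : ∑ s ∈ S, F s * ce S c G s = ∑ s ∈ S, ce S c G s * F s :=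
    sum_congr rfl fun s _ => mul_comm _ _
  rw [h', h G F]
  refine sum_congr rfl fun s _ => sum_congr rfl fun u _ => ?_
  by_cases hc : c s = c u
  · rw [if_pos hc, if_pos hc.symm, hc]
    ring
  · rw [if_neg hc, if_neg (fun h => hc h.symm)]

/-- the average of a function which is constant on cells -/
theorem ce_of_const (S : Finset α) (c : α → ι) (G : α → ℝ)
    (hG : ∀ s ∈ S, ∀ u ∈ S, c s = c u → G s = G u) {s : α} (hs : s ∈ S) :
    ce S c G s = G s := by
  unfold ce
  have h1 : ∑ u ∈ S.filter (fun u => c u = c s), G u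
      = ∑ _u ∈ S.filter (fun u => c u = c s), G s := by
    refine sum_congr rfl fun u hu => ?_
    rw [mem_filter] at hu
    exact hG u hu.1 s hs hu.2
  have h2 : ((S.filter (fun u => c u = c s)).card : ℝ) ≠ 0 := by
    have : s ∈ S.filter (fun u => c u = c s) := mem_filter.2 ⟨hs, rfl⟩
    exact_mod_cast (card_pos.2 ⟨s, this⟩).ne'
  rw [h1, sum_const, nsmul_eq_mul]
  field_simp

/-- the average can be dropped against functions which are constant on cells -/
theorem ce_mul_const (S : Finset α) (c : α → ι) (F G : α → ℝ)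
    (hG : ∀ s ∈ S, ∀ u ∈ S, c s = c u → G s = G u) :
    ∑ s ∈ S, ce S c F s * G s = ∑ s ∈ S, F s * G s := by
  rw [ce_adj]
  exact sum_congr rfl fun s hs => by rw [ce_of_const S c G hG hs]

/-- restriction to a union of cells -/
theorem ce_filter (S : Finset α) (c' : α → κ) (c : α → ι) (h : Refines c' c) (i : ι) (F : α → ℝ)
    (s : α) (hs : s ∈ S.filter (fun u => c u = i)) :
    ce (S.filter (fun u => c u = i)) c' F s = ce S c' F s := by
  unfold ce
  have h1 : (S.filter (fun u => c u = i)).filter (fun u => c' u = c' s)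
      = S.filter (fun u => c' u = c' s) := by
    ext u
    simp only [mem_filter] at hs ⊢
    constructor
    · exact fun hu => ⟨hu.1.1, hu.2⟩
    · exact fun hu => ⟨⟨hu.1, (h u s hu.2).trans hs.2⟩, hu.2⟩
  rw [h1]

/-- Pythagoras for a refinement -/
theorem ce_pyth (S : Finset α) (c' : α → κ) (c : α → ι) (h : Refines c' c) (F : α → ℝ) :
    ∑ s ∈ S, (ce S c' F s - ce S c F s) ^ 2
      = ∑ s ∈ S, (ce S c' F s) ^ 2 - ∑ s ∈ S, (ce S c F s) ^ 2 := by
  have h1 : ∑ s ∈ S, ce S c' F s * ce S c F s = ∑ s ∈ S, F s * ce S c F s :=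
    ce_mul_const S c' F (ce S c F) fun s _ u _ hsu => ce_congr S c F (h s u hsu)
  have h2 : ∑ s ∈ S, ce S c F s * ce S c F s = ∑ s ∈ S, F s * ce S c F s :=
    ce_mul_const S c F (ce S c F) fun s _ u _ hsu => ce_congr S c F hsu
  have h3 : ∑ s ∈ S, (ce S c' F s - ce S c F s) ^ 2 = ∑ s ∈ S, (ce S c' F s) ^ 2
      - 2 * ∑ s ∈ S, ce S c' F s * ce S c F s + ∑ s ∈ S, ce S c F s * ce S c F s := by
    rw [mul_sum, ← sum_sub_distrib, ← sum_add_distrib]
    exact sum_congr rfl fun s _ => by ring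
  have h4 : ∑ s ∈ S, (ce S c F s) ^ 2 = ∑ s ∈ S, ce S c F s * ce S c F s :=
    sum_congr rfl fun s _ => by ring
  rw [h3, h4, h1, h2]
  ring

end CE

end Pool.Agent.Lib.MP_c82047_co18.Seven
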