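import Pool.Agent.Lib.MP_c82047_co18.Seven.Defs

/-! Module TAU of the three-colour (7,4) theorem: identities for `tau` and `adj`. -/

namespace Pool.Agent.Lib.MP_c82047_co18.Seven

open Finset

section TAU

variable {V : Type*} [DecidableEq V] [Fintype V]

omit [Fintype V] in
theorem tau_swap12 (H : Finset (Finset V)) (x y z : V) : tau H x y z = tau H y x z := by
  unfold tau
  rw [Finset.insert_comm]

omit [Fintype V] in
theorem tau_swap23 (H : Finset (Finset V)) (x y z : V) : tau H x y z = tau H x z y := by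
  unfold tau
  rw [Finset.pair_comm]

omit [Fintype V] in
theorem adj_comm (H : Finset (Finset V)) (x y : V) : adj H x y = adj H y x := by
  unfold adj
  congr 1
  rw [ne_comm]
  refine propext (and_congr_right fun _ => exists_congr fun h => ?_)
  tauto

omit [Fintype V] in
/-- the two possible third points agree -/
theorem third_unique {H : Finset (Finset V)} (hl : Lin H) {x y z w : V}
    (hz : ({x, y, z} : Finset V) ∈ H) (hw : ({x, y, w} : Finset V) ∈ H) : z = w := by
  by_contra hne
  have c1 := hl.card3 _ hz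
  have c2 := hl.card3 _ hw
  have hxy : x ≠ y := by
    rintro rfl
    have : ({x, x, z} : Finset V) = {x, z} := by simp
    rw [this] at c1
    have := Finset.card_le_two (a := x) (b := z)
    omega
  have hzx : z ≠ x := by
    rintro rfl
    have h3 : ({z, y, z} : Finset V) = {z, y} := by
      ext a; simp; tauto
    rw [h3] at c1
    have := Finset.card_le_two (a := z) (b := y)
    omega
  have hzy : z ≠ y := by
    rintro rfl
    have h3 : ({x, z, z} : Finset V) = {x, z} := by
      ext a; simp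
    rw [h3] at c1
    have := Finset.card_le_two (a := x) (b := z)
    omega
  have hne' : ({x, y, z} : Finset V) ≠ {x, y, w} := by
    intro h
    have : z ∈ ({x, y, w} : Finset V) := by rw [← h]; simp
    simp only [mem_insert, mem_singleton] at this
    rcases this with h | h | h
    · exact hzx h
    · exact hzy h
    · exact hne h
  have h4 := hl.lin _ hz _ hw hne'
  have h5 : ({x, y} : Finset V) ⊆ ({x, y, z} : Finset V) ∩ {x, y, w} := by
    intro a ha
    simp only [mem_insert, mem_singleton] at ha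
    simp only [mem_inter, mem_insert, mem_singleton]
    tauto
  have h6 := card_le_card h5
  rw [card_pair hxy] at h6
  omega

omit [Fintype V] in
/-- a triple through `x ≠ y` is `{x, y, z}` -/
theorem exists_third {H : Finset (Finset V)} (hl : Lin H) {x y : V} (hxy : x ≠ y)
    {h : Finset V} (hh : h ∈ H) (hx : x ∈ h) (hy : y ∈ h) : ∃ z, h = {x, y, z} := by
  have c1 := hl.card3 _ hh
  have h2 : ((h.erase x).erase y).card = 1 := by
    rw [card_erase_of_mem (mem_erase.2 ⟨hxy.symm, hy⟩), card_erase_of_mem hx, c1]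
  obtain ⟨z, hz⟩ := card_eq_one.1 h2
  refine ⟨z, ?_⟩
  rw [← insert_erase hx, ← insert_erase (mem_erase.2 ⟨hxy.symm, hy⟩), hz]

omit [Fintype V] in
theorem adj_of_triple {H : Finset (Finset V)} (hl : Lin H) {x y z : V}
    (hz : ({x, y, z} : Finset V) ∈ H) : adj H x y = 1 := by
  have c1 := hl.card3 _ hz
  have hxy : x ≠ y := by
    rintro rfl
    have : ({x, x, z} : Finset V) = {x, z} := by simp
    rw [this] at c1
    have := Finset.card_le_two (a := x) (b := z)
    omega
  unfold adj
  rw [if_pos ⟨hxy, _, hz, by simp, by simp⟩]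

theorem sum_tau (H : Finset (Finset V)) (hl : Lin H) (x y : V) : ∑ z, tau H x y z = adj H x y := by
  by_cases h : ∃ z, ({x, y, z} : Finset V) ∈ H
  · obtain ⟨z, hz⟩ := h
    rw [adj_of_triple hl hz, Finset.sum_eq_single z]
    · unfold tau; rw [if_pos hz]
    · intro w _ hw
      unfold tau
      rw [if_neg fun h => hw (third_unique hl h hz)]
    · intro h; exact absurd (mem_univ z) h
  · have h0 : ∀ z, tau H x y z = 0 := by
      intro z
      unfold tau
      rw [if_neg fun hz => h ⟨z, hz⟩]
    rw [sum_congr rfl fun z _ => h0 z, sum_const_zero]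
    unfold adj
    rw [if_neg]
    rintro ⟨hne, k, hk, hx, hy⟩
    obtain ⟨z, hz⟩ := exists_third hl hne hk hx hy
    exact h ⟨z, hz ▸ hk⟩

omit [Fintype V] in
/-- `adj` as a sum over the triples -/
theorem adj_eq_sum (H : Finset (Finset V)) (hl : Lin H) (x y : V) :
    adj H x y = ∑ h ∈ H, if x ≠ y ∧ x ∈ h ∧ y ∈ h then (1 : ℝ) else 0 := by
  by_cases hxy : x ≠ y ∧ ∃ h ∈ H, x ∈ h ∧ y ∈ h
  · obtain ⟨hne, k, hk, hx, hy⟩ := hxy
    unfold adj
    rw [if_pos ⟨hne, k, hk, hx, hy⟩, Finset.sum_eq_single k]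
    · rw [if_pos ⟨hne, hx, hy⟩]
    · intro h hh hhk
      rw [if_neg]
      rintro ⟨_, hx', hy'⟩
      have h4 := hl.lin _ hh _ hk hhk
      have h5 : ({x, y} : Finset V) ⊆ h ∩ k := by
        intro a ha
        simp only [mem_insert, mem_singleton] at ha
        rcases ha with rfl | rfl
        · exact mem_inter.2 ⟨hx', hx⟩
        · exact mem_inter.2 ⟨hy', hy⟩
      have h6 := card_le_card h5
      rw [card_pair hne] at h6
      omega
    · intro h; exact absurd hk h
  · unfold adj
    rw [if_neg hxy, Finset.sum_eq_zero]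
    intro h hh
    rw [if_neg]
    rintro ⟨hne, hx, hy⟩
    exact hxy ⟨hne, h, hh, hx, hy⟩

theorem sum_adj (H : Finset (Finset V)) (hl : Lin H) : ∑ x, ∑ y, adj H x y = 6 * (H.card : ℝ) := by
  have key : ∀ h ∈ H, ∑ x : V, ∑ y : V, (if x ≠ y ∧ x ∈ h ∧ y ∈ h then (1 : ℝ) else 0) = 6 := by
    intro h hh
    have c := hl.card3 h hh
    have e : ∑ x : V, ∑ y : V, (if x ≠ y ∧ x ∈ h ∧ y ∈ h then (1 : ℝ) else 0)
        = (h.offDiag.card : ℝ) := by
      rw [← sum_product']
      rw [← sum_filter, sum_const, nsmul_eq_mul, mul_one]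
      congr 2
      ext p
      simp only [mem_filter, mem_product, mem_univ, true_and, mem_offDiag]
      tauto
    rw [e, offDiag_card, c]
    norm_num
  calc ∑ x, ∑ y, adj H x y
      = ∑ x, ∑ y, ∑ h ∈ H, (if x ≠ y ∧ x ∈ h ∧ y ∈ h then (1 : ℝ) else 0) :=
        sum_congr rfl fun x _ => sum_congr rfl fun y _ => adj_eq_sum H hl x y
    _ = ∑ h ∈ H, ∑ x, ∑ y, (if x ≠ y ∧ x ∈ h ∧ y ∈ h then (1 : ℝ) else 0) := by
        rw [sum_congr rfl fun x _ => sum_comm, sum_comm]
    _ = ∑ h ∈ H, 6 := sum_congr rfl key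
    _ = 6 * (H.card : ℝ) := by rw [sum_const, nsmul_eq_mul]; ring

omit [Fintype V] in
theorem Lin.mono {H T : Finset (Finset V)} (hT : Lin T) (h : H ⊆ T) : Lin H :=
  ⟨fun k hk => hT.card3 k (h hk), fun k hk l hl hne => hT.lin k (h hk) l (h hl) hne⟩

/-- in a partition of a linear system the shadows are disjoint -/
theorem adj_add_le (T : Finset (Finset V)) (hl : Lin T) (H : Fin 3 → Finset (Finset V))
    (hsub : ∀ i, H i ⊆ T) (hdis : ∀ i j, i ≠ j → Disjoint (H i) (H j)) (x y : V) :
    ∑ i, adj (H i) x y ≤ 1 := by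
  have h1 : ∀ i, adj (H i) x y = ∑ h ∈ H i, if x ≠ y ∧ x ∈ h ∧ y ∈ h then (1 : ℝ) else 0 :=
    fun i => adj_eq_sum (H i) (hl.mono (hsub i)) x y
  have hle : adj T x y ≤ 1 := by unfold adj; split <;> norm_num
  refine le_trans ?_ hle
  rw [sum_congr rfl fun i _ => h1 i, adj_eq_sum T hl, ← sum_biUnion]
  · refine sum_le_sum_of_subset_of_nonneg ?_ fun h _ _ => by split <;> norm_num
    exact biUnion_subset.2 fun i _ => hsub i
  · intro i _ j _ hij
    exact hdis i j hij

end TAU

end Pool.Agent.Lib.MP_c82047_co18.Seven
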