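import Pool.Agent.Lib.MP_c82047_co18.Seven.LOC
import Pool.Agent.Lib.MP_c82047_co18.Seven.TAU

/-!
# One pair of cells for one point `x`
-/

namespace Pool.Agent.Lib.MP_c82047_co18.Seven

open Finset

section HALF

variable {V : Type*} [DecidableEq V] [Fintype V]

omit [Fintype V] in
theorem adj_self (H : Finset (Finset V)) (x : V) : adj H x x = 0 := by
  unfold adj
  rw [if_neg]
  exact fun h => h.1 rfl

omit [Fintype V] in
theorem adj_bounds (H : Finset (Finset V)) (x y : V) : 0 ≤ adj H x y ∧ adj H x y ≤ 1 := by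
  unfold adj
  split_ifs <;> norm_num

omit [Fintype V] in
theorem tau_bounds (H : Finset (Finset V)) (x y z : V) : 0 ≤ tau H x y z ∧ tau H x y z ≤ 1 := by
  unfold tau
  split_ifs <;> norm_num

omit [Fintype V] in
/-- Two triples through `x` which are equal. -/
theorem triple_eq_cases (H : Finset (Finset V)) (hl : Lin H) (x s t s' t' : V)
    (h' : ({x, s', t'} : Finset V) ∈ H)
    (he : ({x, s, t} : Finset V) = {x, s', t'}) : (s' = s ∧ t' = t) ∨ (s' = t ∧ t' = s) := by
  obtain ⟨n1', n2', n3'⟩ := loc_ne H hl _ _ _ h'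
  have h1 : s' ∈ ({x, s, t} : Finset V) := by rw [he]; simp
  have h2 : t' ∈ ({x, s, t} : Finset V) := by rw [he]; simp
  simp only [mem_insert, mem_singleton] at h1 h2
  rcases h1 with h1 | h1 | h1
  · exact (n1' h1.symm).elim
  · rcases h2 with h2 | h2 | h2
    · exact (n2' h2.symm).elim
    · exact (n3' (h1.trans h2.symm)).elim
    · exact Or.inl ⟨h1, h2⟩
  · rcases h2 with h2 | h2 | h2
    · exact (n2' h2.symm).elim
    · exact Or.inr ⟨h1, h2⟩
    · exact (n3' (h1.trans h2.symm)).elim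

/-- The pointwise inequality behind `half_local`. -/
theorem half_point (H : Finset (Finset V)) (hl : Lin H) (hf : Free74 H) (x s t' s' t : V) :
    tau H x s t' * tau H x s' t * (adj H s t + adj H s' t') ≤
      tau H x s t' * tau H x s' t + tau H x s t' * (if s = s' then 1 else 0) *
        (if t = t' then 1 else 0) := by
  by_cases h1 : ({x, s, t'} : Finset V) ∈ H
  · by_cases h2 : ({x, s', t} : Finset V) ∈ H
    · have e1 : tau H x s t' = 1 := by unfold tau; rw [if_pos h1]
      have e2 : tau H x s' t = 1 := by unfold tau; rw [if_pos h2]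
      rw [e1, e2]
      by_cases he : ({x, s, t'} : Finset V) = {x, s', t}
      · rcases triple_eq_cases H hl x s t' s' t h2 he with ⟨h3, h4⟩ | ⟨h3, h4⟩
        · subst h3 h4
          simp only [if_true]
          have := adj_bounds H s' t
          linarith [this.2]
        · subst h3 h4
          rw [adj_self, adj_self]
          have h5 : (0 : ℝ) ≤ if t = s' then 1 else 0 := by split_ifs <;> norm_num
          have h6 : (0 : ℝ) ≤ 1 * (if t = s' then 1 else 0) * (if t = s' then 1 else 0) := by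
            positivity
          linarith
      · have h3 := loc H hl hf x s t' s' t h1 h2 he
        have h4 := (adj_bounds H s s').1
        have h5 := (adj_bounds H t' t).1
        have h6 := adj_comm H s' t'
        have h7 : (0 : ℝ) ≤ 1 * (if s = s' then 1 else 0) * (if t = t' then 1 else 0) := by
          have h8 : (0 : ℝ) ≤ if s = s' then 1 else 0 := by split_ifs <;> norm_num
          have h9 : (0 : ℝ) ≤ if t = t' then 1 else 0 := by split_ifs <;> norm_num
          positivity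
        rw [h6]
        linarith
    · have e2 : tau H x s' t = 0 := by unfold tau; rw [if_neg h2]
      rw [e2]
      have h5 := (tau_bounds H x s t').1
      have h8 : (0 : ℝ) ≤ if s = s' then 1 else 0 := by split_ifs <;> norm_num
      have h9 : (0 : ℝ) ≤ if t = t' then 1 else 0 := by split_ifs <;> norm_num
      have : 0 ≤ tau H x s t' * (if s = s' then 1 else 0) * (if t = t' then 1 else 0) := by
        positivity
      linarith
  · have e1 : tau H x s t' = 0 := by unfold tau; rw [if_neg h1]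
    rw [e1]
    linarith

/-- `b` is the indicator of `U_x`, `g` the indicator of the set of partners -/
theorem half_local (H : Finset (Finset V)) (hl : Lin H) (hf : Free74 H) (S T : Finset V) (x : V) :
    ∑ s ∈ S, ∑ t ∈ T, (∑ t' ∈ T, tau H x s t') * adj H s t * (∑ s' ∈ S, tau H x s' t)
      ≤ (1 / 2) * (∑ s ∈ S, ∑ t ∈ T, tau H x s t) ^ 2
        + (1 / 2) * (∑ s ∈ S, ∑ t ∈ T, tau H x s t) := by
  -- expand
  have h1 : ∑ s ∈ S, ∑ t ∈ T, (∑ t' ∈ T, tau H x s t') * adj H s t * (∑ s' ∈ S, tau H x s' t) =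
      ∑ s ∈ S, ∑ t' ∈ T, ∑ s' ∈ S, ∑ t ∈ T, tau H x s t' * tau H x s' t * adj H s t := by
    refine sum_congr rfl fun s _ => ?_
    have h2 : ∀ t ∈ T, (∑ t' ∈ T, tau H x s t') * adj H s t * (∑ s' ∈ S, tau H x s' t) =
        ∑ t' ∈ T, ∑ s' ∈ S, tau H x s t' * tau H x s' t * adj H s t := by
      intro t _
      rw [mul_assoc, sum_mul]
      refine sum_congr rfl fun t' _ => ?_
      rw [mul_sum, mul_sum]
      refine sum_congr rfl fun s' _ => ?_
      ring
    rw [sum_congr rfl h2, sum_comm]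
    refine sum_congr rfl fun t' _ => ?_
    rw [sum_comm]
  -- the swapped form
  have h3 : ∑ s ∈ S, ∑ t' ∈ T, ∑ s' ∈ S, ∑ t ∈ T, tau H x s t' * tau H x s' t * adj H s t =
      ∑ s ∈ S, ∑ t' ∈ T, ∑ s' ∈ S, ∑ t ∈ T, tau H x s t' * tau H x s' t * adj H s' t' := by
    have h4 : ∀ F : V → V → V → V → ℝ, ∑ s ∈ S, ∑ t' ∈ T, ∑ s' ∈ S, ∑ t ∈ T, F s t' s' t =
        ∑ s ∈ S, ∑ t' ∈ T, ∑ s' ∈ S, ∑ t ∈ T, F s' t s t' := by
      intro F
      rw [← sum_product' S T (fun s t' => ∑ s' ∈ S, ∑ t ∈ T, F s t' s' t),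
        ← sum_product' S T (fun s t' => ∑ s' ∈ S, ∑ t ∈ T, F s' t s t')]
      have h5 : ∀ p ∈ S ×ˢ T, ∑ s' ∈ S, ∑ t ∈ T, F p.1 p.2 s' t =
          ∑ q ∈ S ×ˢ T, F p.1 p.2 q.1 q.2 := fun p _ =>
            (sum_product S T (fun q => F p.1 p.2 q.1 q.2)).symm
      have h6 : ∀ p ∈ S ×ˢ T, ∑ s' ∈ S, ∑ t ∈ T, F s' t p.1 p.2 =
          ∑ q ∈ S ×ˢ T, F q.1 q.2 p.1 p.2 := fun p _ =>
            (sum_product S T (fun q => F q.1 q.2 p.1 p.2)).symm
      rw [sum_congr rfl h5, sum_congr rfl h6, sum_comm]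
    rw [h4]
    refine sum_congr rfl fun s _ => sum_congr rfl fun t' _ => sum_congr rfl fun s' _ =>
      sum_congr rfl fun t _ => ?_
    ring
  have h5 : ∑ s ∈ S, ∑ t' ∈ T, ∑ s' ∈ S, ∑ t ∈ T, tau H x s t' * tau H x s' t *
      (adj H s t + adj H s' t') ≤ ∑ s ∈ S, ∑ t' ∈ T, ∑ s' ∈ S, ∑ t ∈ T,
        (tau H x s t' * tau H x s' t + tau H x s t' * (if s = s' then 1 else 0) *
        (if t = t' then 1 else 0)) :=
    sum_le_sum fun s _ => sum_le_sum fun t' _ => sum_le_sum fun s' _ => sum_le_sum fun t _ =>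
      half_point H hl hf x s t' s' t
  have h6 : ∑ s ∈ S, ∑ t' ∈ T, ∑ s' ∈ S, ∑ t ∈ T, tau H x s t' * tau H x s' t *
      (adj H s t + adj H s' t') =
      ∑ s ∈ S, ∑ t' ∈ T, ∑ s' ∈ S, ∑ t ∈ T, tau H x s t' * tau H x s' t * adj H s t +
      ∑ s ∈ S, ∑ t' ∈ T, ∑ s' ∈ S, ∑ t ∈ T, tau H x s t' * tau H x s' t * adj H s' t' := by
    simp only [mul_add, sum_add_distrib]
  have h7 : ∑ s ∈ S, ∑ t' ∈ T, ∑ s' ∈ S, ∑ t ∈ T,
        (tau H x s t' * tau H x s' t + tau H x s t' * (if s = s' then 1 else 0) *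
        (if t = t' then 1 else 0)) =
      (∑ s ∈ S, ∑ t ∈ T, tau H x s t) ^ 2 + ∑ s ∈ S, ∑ t ∈ T, tau H x s t := by
    simp only [sum_add_distrib]
    congr 1
    · rw [pow_two, sum_mul]
      refine sum_congr rfl fun s _ => ?_
      rw [sum_mul]
      refine sum_congr rfl fun t' _ => ?_
      rw [mul_sum]
      refine sum_congr rfl fun s' _ => ?_
      rw [mul_sum]
    · refine sum_congr rfl fun s hs => sum_congr rfl fun t' ht' => ?_
      have : ∀ s' ∈ S, ∑ t ∈ T, tau H x s t' * (if s = s' then 1 else 0) *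
          (if t = t' then 1 else 0) = tau H x s t' * (if s = s' then 1 else 0) := by
        intro s' _
        rw [← mul_sum, sum_ite_eq' T t' fun _ => (1 : ℝ), if_pos ht', mul_one]
      rw [sum_congr rfl this, ← mul_sum, sum_ite_eq S s fun _ => (1 : ℝ), if_pos hs, mul_one]
  rw [h1]
  rw [h6, ← h3] at h5
  rw [h7] at h5
  linarith

end HALF

end Pool.Agent.Lib.MP_c82047_co18.Seven
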