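import Pool.Agent.Lib.MP_c82047_co18.Seven.Defs
import Pool.Agent.Lib.MP_c82047_co18.Seven.CE
import Pool.Agent.Lib.MP_c82047_co18.Seven.TAU
import Pool.Agent.Lib.MP_c82047_co18.Seven.HALF

/-! Module C1STEP of the three-colour (7,4) theorem: the inequality for a colouring and a
refinement. -/

namespace Pool.Agent.Lib.MP_c82047_co18.Seven

open Finset

section C1STEP

variable {V : Type*} [DecidableEq V] [Fintype V]

/-- the energy of the colouring `c` of `S` for the matrix `B_T(x, s)` -/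
noncomputable def energy (H : Finset (Finset V)) (S T : Finset V) (c : V → ℕ) : ℝ :=
  ∑ x, ∑ s ∈ S, (ce S c (fun u => ∑ t ∈ T, tau H x u t) s) ^ 2

omit [Fintype V] in
private theorem tau_nn (H : Finset (Finset V)) (x y z : V) : 0 ≤ tau H x y z := by
  unfold tau; split <;> norm_num

omit [Fintype V] in
private theorem adj_nn (H : Finset (Finset V)) (x y : V) : 0 ≤ adj H x y := by
  unfold adj; split <;> norm_num

omit [Fintype V] in
private theorem adj_le (H : Finset (Finset V)) (x y : V) : adj H x y ≤ 1 := by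
  unfold adj; split <;> norm_num

/-- the sum over the first variable -/
private theorem sum_tau1 (H : Finset (Finset V)) (hl : Lin H) (y z : V) :
    ∑ x, tau H x y z = adj H y z := by
  rw [← sum_tau H hl y z]
  refine sum_congr rfl fun x _ => ?_
  rw [tau_swap12, tau_swap23]

/-- the sum over the second variable -/
private theorem sum_tau2 (H : Finset (Finset V)) (hl : Lin H) (x z : V) :
    ∑ y, tau H x y z = adj H x z := by
  rw [← sum_tau H hl x z]
  refine sum_congr rfl fun y _ => ?_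
  rw [tau_swap23]

private theorem g_le (H : Finset (Finset V)) (hl : Lin H) (S : Finset V) (x t : V) :
    ∑ s ∈ S, tau H x s t ≤ 1 := by
  calc ∑ s ∈ S, tau H x s t ≤ ∑ s, tau H x s t :=
        sum_le_sum_of_subset_of_nonneg (subset_univ _) fun s _ _ => tau_nn H x s t
    _ = adj H x t := sum_tau2 H hl x t
    _ ≤ 1 := adj_le H x t

private theorem b_le (H : Finset (Finset V)) (hl : Lin H) (T : Finset V) (x s : V) :
    ∑ t ∈ T, tau H x s t ≤ 1 := by
  calc ∑ t ∈ T, tau H x s t ≤ ∑ t, tau H x s t :=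
        sum_le_sum_of_subset_of_nonneg (subset_univ _) fun t _ _ => tau_nn H x s t
    _ = adj H x s := sum_tau H hl x s
    _ ≤ 1 := adj_le H x s

/-- the inequality for one point and one cell -/
private theorem one_cell (H : Finset (Finset V)) (hl : Lin H) (hf : Free74 H) (S T : Finset V)
    (c c' : V → ℕ) (hr : Refines c' c) (ε θ : ℝ) (hε : 0 < ε)
    (hθ : 0 < θ)
    (hreg : ∀ g : V → ℝ, (∀ t, 0 ≤ g t ∧ g t ≤ 1) →
          ∑ s ∈ S, |∑ t ∈ T, adj H s t * g t - ce S c' (fun u => ∑ t ∈ T, adj H u t * g t) s|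
            ≤ ε * S.card * T.card) (x : V) (i : ℕ) :
    (∑ s ∈ S.filter (fun u => c u = i), ∑ t ∈ T, adj H s t *
        ∑ s' ∈ S.filter (fun u => c u = i), tau H x s' t) /
          ((S.filter (fun u => c u = i)).card : ℝ)
      ≤ (1 / 2) * (∑ s ∈ S.filter (fun u => c u = i), ∑ t ∈ T, tau H x s t)
        + (1 / 2 + ε * S.card * T.card / θ + θ)
        + ∑ s ∈ S.filter (fun u => c u = i),
          |ce S c' (fun u => ∑ t ∈ T, tau H x u t) s - ce S c (fun u => ∑ t ∈ T, tau H x u t) s| := by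
  classical
  set Si := S.filter (fun u => c u = i) with hSi
  set b : V → ℝ := fun u => ∑ t ∈ T, tau H x u t with hb
  set g : V → ℝ := fun t => ∑ s' ∈ Si, tau H x s' t with hg
  set ψ : V → ℝ := fun s => ∑ t ∈ T, adj H s t * g t with hψ
  set r : ℝ := ∑ s ∈ Si, ∑ t ∈ T, tau H x s t with hrdef
  set Δ : ℝ := ∑ s ∈ Si, |ce S c' b s - ce S c b s| with hΔ
  have hg0 : ∀ t, 0 ≤ g t := fun t => sum_nonneg fun s _ => tau_nn H x s t
  have hg1 : ∀ t, g t ≤ 1 := fun t => g_le H hl Si x t
  have hb0 : ∀ s, 0 ≤ b s := fun s => sum_nonneg fun t _ => tau_nn H x s t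
  have hb1 : ∀ s, b s ≤ 1 := fun s => b_le H hl T x s
  have hr0 : 0 ≤ r := sum_nonneg fun s _ => hb0 s
  have hrg : ∑ t ∈ T, g t = r := by
    simp only [hg, hrdef]; rw [sum_comm]
  have hψ0 : ∀ s, 0 ≤ ψ s := fun s => sum_nonneg fun t _ => mul_nonneg (adj_nn H s t) (hg0 t)
  have hψr : ∀ s, ψ s ≤ r := by
    intro s
    rw [← hrg]
    refine sum_le_sum fun t _ => ?_
    have := mul_le_mul_of_nonneg_right (adj_le H s t) (hg0 t)
    linarith
  have hΔ0 : 0 ≤ Δ := sum_nonneg fun s _ => abs_nonneg _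
  -- step 1
  have h1 : ∑ s ∈ Si, b s * ψ s ≤ (1 / 2) * r ^ 2 + (1 / 2) * r := by
    have := half_local H hl hf Si T x
    refine le_trans (le_of_eq ?_) this
    refine sum_congr rfl fun s _ => ?_
    simp only [hb, hψ, hg]
    rw [mul_sum]
    refine sum_congr rfl fun t _ => ?_
    ring
  have h2 : ∑ s ∈ Si, |ψ s - ce S c' ψ s| ≤ ε * S.card * T.card := by
    refine le_trans ?_ (hreg g fun t => ⟨hg0 t, hg1 t⟩)
    exact sum_le_sum_of_subset_of_nonneg (filter_subset _ _) fun s _ _ => abs_nonneg _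
  have h3 : ∑ s ∈ Si, b s * ce S c' ψ s ≤ (1 / 2) * r ^ 2 + (1 / 2) * r + ε * S.card * T.card := by
    have : ∑ s ∈ Si, b s * ce S c' ψ s ≤ ∑ s ∈ Si, (b s * ψ s + |ψ s - ce S c' ψ s|) := by
      refine sum_le_sum fun s _ => ?_
      have e1 : b s * (ce S c' ψ s - ψ s) ≤ b s * |ψ s - ce S c' ψ s| := by
        refine mul_le_mul_of_nonneg_left ?_ (hb0 s)
        rw [abs_sub_comm]; exact le_abs_self _
      have e2 : b s * |ψ s - ce S c' ψ s| ≤ 1 * |ψ s - ce S c' ψ s| :=
        mul_le_mul_of_nonneg_right (hb1 s) (abs_nonneg _)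
      nlinarith
    rw [sum_add_distrib] at this
    linarith
  have h4 : ∑ s ∈ Si, b s * ce S c' ψ s = ∑ s ∈ Si, ce S c' b s * ψ s := by
    have e := ce_adj Si c' b ψ
    rw [sum_congr rfl (fun s hs => by rw [ce_filter S c' c hr i b s hs] :
      ∀ s ∈ Si, ce Si c' b s * ψ s = ce S c' b s * ψ s),
      sum_congr rfl (fun s hs => by rw [ce_filter S c' c hr i ψ s hs] :
      ∀ s ∈ Si, b s * ce Si c' ψ s = b s * ce S c' ψ s)] at e
    exact e.symm
  have h5 : ∑ s ∈ Si, ce S c b s * ψ s = r * ((∑ s ∈ Si, ψ s) / (Si.card : ℝ)) := by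
    have : ∀ s ∈ Si, ce S c b s * ψ s = (r / (Si.card : ℝ)) * ψ s := by
      intro s hs
      have hcs : c s = i := (mem_filter.1 hs).2
      unfold ce
      rw [hcs]
    rw [sum_congr rfl this, ← mul_sum]
    ring
  have h6 : ∑ s ∈ Si, ce S c b s * ψ s ≤ ∑ s ∈ Si, ce S c' b s * ψ s + r * Δ := by
    have : ∑ s ∈ Si, ce S c b s * ψ s ≤
        ∑ s ∈ Si, (ce S c' b s * ψ s + r * |ce S c' b s - ce S c b s|) := by
      refine sum_le_sum fun s _ => ?_
      have e1 : (ce S c b s - ce S c' b s) * ψ s ≤ |ce S c' b s - ce S c b s| * ψ s := by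
        refine mul_le_mul_of_nonneg_right ?_ (hψ0 s)
        rw [abs_sub_comm]; exact le_abs_self _
      have e2 : |ce S c' b s - ce S c b s| * ψ s ≤ |ce S c' b s - ce S c b s| * r :=
        mul_le_mul_of_nonneg_left (hψr s) (abs_nonneg _)
      nlinarith
    rw [sum_add_distrib, ← mul_sum] at this
    exact this
  set avg : ℝ := (∑ s ∈ Si, ψ s) / (Si.card : ℝ) with havg
  have h7 : r * avg ≤ (1 / 2) * r ^ 2 + (1 / 2) * r + ε * S.card * T.card + r * Δ := by
    rw [← h5]; linarith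
  have h8 : avg ≤ r := by
    rw [havg]
    rcases Si.card.eq_zero_or_pos with h0 | hpos
    · rw [h0]; simpa using hr0
    · have hpos' : (0 : ℝ) < (Si.card : ℝ) := by exact_mod_cast hpos
      rw [div_le_iff₀ hpos']
      calc ∑ s ∈ Si, ψ s ≤ ∑ s ∈ Si, r := sum_le_sum fun s _ => hψr s
        _ = r * (Si.card : ℝ) := by rw [sum_const, nsmul_eq_mul]; ring
  have hE : 0 ≤ ε * S.card * T.card := by positivity
  have hEθ : 0 ≤ ε * S.card * T.card / θ := by positivity
  rcases le_or_gt θ r with hle | hlt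
  · have hrpos : 0 < r := lt_of_lt_of_le hθ hle
    have h9 : ε * S.card * T.card ≤ r * (ε * S.card * T.card / θ) := by
      have : ε * S.card * T.card = θ * (ε * S.card * T.card / θ) := by
        field_simp
      calc ε * S.card * T.card = θ * (ε * S.card * T.card / θ) := this
        _ ≤ r * (ε * S.card * T.card / θ) := mul_le_mul_of_nonneg_right hle hEθ
    have h10 : r * avg ≤ r * ((1 / 2) * r + (1 / 2 + ε * S.card * T.card / θ + θ) + Δ) := by
      have : 0 ≤ r * θ := by positivity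
      nlinarith
    exact le_of_mul_le_mul_left h10 hrpos
  · linarith

theorem c1_step (H : Finset (Finset V)) (hl : Lin H) (hf : Free74 H) (S T : Finset V)
    (c c' : V → ℕ) (K : ℕ) (hc : ∀ s, c s < K) (hr : Refines c' c) (ε θ : ℝ) (hε : 0 < ε)
    (hθ : 0 < θ)
    (hreg : ∀ g : V → ℝ, (∀ t, 0 ≤ g t ∧ g t ≤ 1) →
          ∑ s ∈ S, |∑ t ∈ T, adj H s t * g t - ce S c' (fun u => ∑ t ∈ T, adj H u t * g t) s|
            ≤ ε * S.card * T.card) :
    (∑ s ∈ S, ∑ t ∈ T, adj H s t) ^ 2 ≤ S.card * T.card *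
      ((1 / 2) * (∑ s ∈ S, ∑ t ∈ T, adj H s t)
        + (Fintype.card V : ℝ) * K * (1 / 2 + ε * S.card * T.card / θ + θ)
        + Real.sqrt ((Fintype.card V : ℝ) * S.card * (energy H S T c' - energy H S T c))) := by
  classical
  -- sums over cells
  have cells : ∀ F : V → ℝ, ∑ i ∈ range K, ∑ s ∈ S.filter (fun u => c u = i), F s = ∑ s ∈ S, F s := by
    intro F
    exact sum_fiberwise_of_maps_to (fun s _ => mem_range.2 (hc s)) F
  set Si : ℕ → Finset V := fun i => S.filter (fun u => c u = i) with hSi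
  set D : ℕ → V → ℝ := fun i t => ∑ s ∈ Si i, adj H s t with hD
  set C : ℝ := 1 / 2 + ε * S.card * T.card / θ + θ with hC
  -- Cauchy-Schwarz
  have hCS : (∑ s ∈ S, ∑ t ∈ T, adj H s t) ^ 2 ≤ S.card * T.card *
      ∑ i ∈ range K, ∑ t ∈ T, D i t ^ 2 / ((Si i).card : ℝ) := by
    have e1 : ∑ s ∈ S, ∑ t ∈ T, adj H s t = ∑ p ∈ range K ×ˢ T, D p.1 p.2 := by
      rw [sum_product, ← cells]
      refine sum_congr rfl fun i _ => ?_
      simp only [hD]
      rw [sum_comm]
    have e2 : ((S.card : ℝ) * T.card) = ∑ p ∈ range K ×ˢ T, ((Si p.1).card : ℝ) := by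
      rw [sum_product]
      have : ∑ i ∈ range K, ((Si i).card : ℝ) = S.card := by
        have h := cells (fun _ => 1)
        simpa using h
      calc ((S.card : ℝ) * T.card) = (∑ i ∈ range K, ((Si i).card : ℝ)) * T.card := by rw [this]
        _ = ∑ i ∈ range K, ((Si i).card : ℝ) * T.card := by rw [sum_mul]
        _ = _ := by
          refine sum_congr rfl fun i _ => ?_
          simp only [sum_const, nsmul_eq_mul]
          ring
    have e3 : ∑ i ∈ range K, ∑ t ∈ T, D i t ^ 2 / ((Si i).card : ℝ)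
        = ∑ p ∈ range K ×ˢ T, D p.1 p.2 ^ 2 / ((Si p.1).card : ℝ) := by
      rw [sum_product]
    rw [e1, e2, e3]
    refine sum_sq_le_sum_mul_sum_of_sq_le_mul _ (fun p _ => by positivity)
      (fun p _ => by positivity) ?_
    intro p _
    refine le_of_eq ?_
    rcases (Si p.1).card.eq_zero_or_pos with h0 | hpos
    · have hem : Si p.1 = ∅ := card_eq_zero.1 h0
      simp [hD, hem]
    · have hpos' : ((Si p.1).card : ℝ) ≠ 0 := by positivity
      field_simp
  -- the sum over x
  have hsum : ∀ i, ∑ t ∈ T, D i t ^ 2 / ((Si i).card : ℝ) = ∑ x, (∑ s ∈ Si i, ∑ t ∈ T, adj H s t *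
        ∑ s' ∈ Si i, tau H x s' t) / ((Si i).card : ℝ) := by
    intro i
    rw [← sum_div, ← sum_div]
    congr 1
    have : ∀ x, ∑ s ∈ Si i, ∑ t ∈ T, adj H s t * ∑ s' ∈ Si i, tau H x s' t
        = ∑ t ∈ T, D i t * ∑ s' ∈ Si i, tau H x s' t := by
      intro x
      rw [sum_comm]
      refine sum_congr rfl fun t _ => ?_
      rw [← sum_mul]
    rw [sum_congr rfl fun x _ => this x, sum_comm]
    refine sum_congr rfl fun t _ => ?_
    rw [← mul_sum, sum_comm, sum_congr rfl fun s' _ => sum_tau1 H hl s' t]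
    simp only [hD]
    ring
  have hmain : ∑ i ∈ range K, ∑ t ∈ T, D i t ^ 2 / ((Si i).card : ℝ)
      ≤ (1 / 2) * (∑ s ∈ S, ∑ t ∈ T, adj H s t) + (Fintype.card V : ℝ) * K * C
        + ∑ x, ∑ s ∈ S, |ce S c' (fun u => ∑ t ∈ T, tau H x u t) s
            - ce S c (fun u => ∑ t ∈ T, tau H x u t) s| := by
    calc ∑ i ∈ range K, ∑ t ∈ T, D i t ^ 2 / ((Si i).card : ℝ)
        = ∑ i ∈ range K, ∑ x, (∑ s ∈ Si i, ∑ t ∈ T, adj H s t *
          ∑ s' ∈ Si i, tau H x s' t) / ((Si i).card : ℝ) := sum_congr rfl fun i _ => hsum i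
      _ ≤ ∑ i ∈ range K, ∑ x, ((1 / 2) * (∑ s ∈ Si i, ∑ t ∈ T, tau H x s t) + C
          + ∑ s ∈ Si i, |ce S c' (fun u => ∑ t ∈ T, tau H x u t) s
            - ce S c (fun u => ∑ t ∈ T, tau H x u t) s|) :=
        sum_le_sum fun i _ => sum_le_sum fun x _ =>
          one_cell H hl hf S T c c' hr ε θ hε hθ hreg x i
      _ = _ := by
        rw [sum_comm]
        have : ∀ x, ∑ i ∈ range K, ((1 / 2) * (∑ s ∈ Si i, ∑ t ∈ T, tau H x s t) + C
          + ∑ s ∈ Si i, |ce S c' (fun u => ∑ t ∈ T, tau H x u t) s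
            - ce S c (fun u => ∑ t ∈ T, tau H x u t) s|)
            = (1 / 2) * (∑ s ∈ S, ∑ t ∈ T, tau H x s t) + K * C
              + ∑ s ∈ S, |ce S c' (fun u => ∑ t ∈ T, tau H x u t) s
            - ce S c (fun u => ∑ t ∈ T, tau H x u t) s| := by
          intro x
          rw [sum_add_distrib, sum_add_distrib, cells, ← mul_sum, cells]
          simp only [sum_const, card_range, nsmul_eq_mul]
        rw [sum_congr rfl fun x _ => this x, sum_add_distrib, sum_add_distrib, ← mul_sum]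
        congr 1
        congr 1
        · congr 1
          rw [sum_comm]
          refine sum_congr rfl fun s _ => ?_
          rw [sum_comm]
          exact sum_congr rfl fun t _ => sum_tau1 H hl s t
        · simp only [sum_const, card_univ, nsmul_eq_mul]
          ring
  have hΔ : ∑ x, ∑ s ∈ S, |ce S c' (fun u => ∑ t ∈ T, tau H x u t) s
            - ce S c (fun u => ∑ t ∈ T, tau H x u t) s|
      ≤ Real.sqrt ((Fintype.card V : ℝ) * S.card * (energy H S T c' - energy H S T c)) := by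
    refine Real.le_sqrt_of_sq_le ?_
    have e1 : energy H S T c' - energy H S T c
        = ∑ p ∈ (univ : Finset V) ×ˢ S, |ce S c' (fun u => ∑ t ∈ T, tau H p.1 u t) p.2
            - ce S c (fun u => ∑ t ∈ T, tau H p.1 u t) p.2| ^ 2 := by
      rw [sum_product]
      unfold energy
      rw [← sum_sub_distrib]
      refine sum_congr rfl fun x _ => ?_
      rw [← ce_pyth S c' c hr]
      exact sum_congr rfl fun s _ => (sq_abs _).symm
    have e2 : ∑ x, ∑ s ∈ S, |ce S c' (fun u => ∑ t ∈ T, tau H x u t) s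
            - ce S c (fun u => ∑ t ∈ T, tau H x u t) s|
          = ∑ p ∈ (univ : Finset V) ×ˢ S, |ce S c' (fun u => ∑ t ∈ T, tau H p.1 u t) p.2
            - ce S c (fun u => ∑ t ∈ T, tau H p.1 u t) p.2| := by
      rw [sum_product]
    rw [e1, e2]
    have := sq_sum_le_card_mul_sum_sq (s := (univ : Finset V) ×ˢ S)
      (f := fun p => |ce S c' (fun u => ∑ t ∈ T, tau H p.1 u t) p.2
            - ce S c (fun u => ∑ t ∈ T, tau H p.1 u t) p.2|)
    rw [card_product, card_univ] at this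
    push_cast at this
    exact this
  refine hCS.trans (mul_le_mul_of_nonneg_left ?_ (by positivity))
  linarith

end C1STEP

end Pool.Agent.Lib.MP_c82047_co18.Seven
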