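import Pool.Agent.Lib.MP_c82047_co18.Seven.OSR
import Pool.Agent.Lib.MP_c82047_co18.Seven.C1STEP

/-!
# The density of every pair of large sets is at most 1/2 (module C1)
-/

namespace Pool.Agent.Lib.MP_c82047_co18.Seven

open Finset

section C1

theorem energy_nonneg {V : Type*} [DecidableEq V] [Fintype V] (H : Finset (Finset V))
    (S T : Finset V) (c : V → ℕ) : 0 ≤ energy H S T c :=
  Finset.sum_nonneg fun _ _ => Finset.sum_nonneg fun _ _ => sq_nonneg _

theorem tau_nonneg' {V : Type*} [DecidableEq V] (H : Finset (Finset V)) (x y z : V) :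
    0 ≤ tau H x y z := by
  unfold tau; split_ifs <;> norm_num

theorem adj_le_one' {V : Type*} [DecidableEq V] (H : Finset (Finset V)) (x y : V) :
    adj H x y ≤ 1 := by
  unfold adj; split_ifs <;> norm_num

theorem adj_nonneg' {V : Type*} [DecidableEq V] (H : Finset (Finset V)) (x y : V) :
    0 ≤ adj H x y := by
  unfold adj; split_ifs <;> norm_num

theorem energy_le {V : Type*} [DecidableEq V] [Fintype V] (H : Finset (Finset V))
    (hl : Lin H) (S T : Finset V) (c : V → ℕ) :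
    energy H S T c ≤ (Fintype.card V : ℝ) * S.card := by
  unfold energy
  calc ∑ x, ∑ s ∈ S, (ce S c (fun u => ∑ t ∈ T, tau H x u t) s) ^ 2
      ≤ ∑ _x : V, ∑ _s ∈ S, (1 : ℝ) := by
        refine Finset.sum_le_sum fun x _ => Finset.sum_le_sum fun s _ => ?_
        have h0 := ce_nonneg S c (fun u => ∑ t ∈ T, tau H x u t)
          (fun u _ => Finset.sum_nonneg fun t _ => tau_nonneg' H x u t) s
        have h1 := ce_le_one S c (fun u => ∑ t ∈ T, tau H x u t) (fun u _ => by
          calc ∑ t ∈ T, tau H x u t ≤ ∑ t, tau H x u t :=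
                Finset.sum_le_sum_of_subset_of_nonneg (Finset.subset_univ _)
                  (fun t _ _ => tau_nonneg' H x u t)
            _ = adj H x u := sum_tau H hl x u
            _ ≤ 1 := adj_le_one' H x u) s
        nlinarith
    _ = (Fintype.card V : ℝ) * S.card := by
        simp only [Finset.sum_const, nsmul_eq_mul, mul_one, Finset.card_univ]

theorem c1 (δ γ : ℝ) (hδ : 0 < δ) (hγ : 0 < γ) : ∃ n₀ : ℕ, ∀ n : ℕ, n₀ ≤ n →
    ∀ H : Finset (Finset (Fin n)), Lin H → Free74 H → ∀ S T : Finset (Fin n),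
      δ * n ≤ S.card → δ * n ≤ T.card →
        ∑ s ∈ S, ∑ t ∈ T, adj H s t ≤ (1 / 2 + γ) * (S.card * T.card) := by
  set η : ℝ := δ * γ / 16 with hη
  have hη0 : 0 < η := by positivity
  -- the numbers of colours
  have hstep : ∀ p : {K : ℕ // 0 < K}, ∃ K' : {K : ℕ // 0 < K}, ∀ {α β : Type} (S : Finset α)
      (T : Finset β) (A : α → β → ℝ), (∀ s t, 0 ≤ A s t ∧ A s t ≤ 1) → ∀ c : α → ℕ,
      (∀ s, c s < p.1) →
      ∃ c' : α → ℕ, (∀ s, c' s < K'.1) ∧ Refines c' c ∧
        ∀ g : β → ℝ, (∀ t, 0 ≤ g t ∧ g t ≤ 1) →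
          ∑ s ∈ S, |∑ t ∈ T, A s t * g t - ce S c' (fun u => ∑ t ∈ T, A u t * g t) s|
            ≤ (η ^ 2 / (p.1 : ℝ) ^ 2) * S.card * T.card := by
    intro p
    have hp : (0 : ℝ) < p.1 := by exact_mod_cast p.2
    obtain ⟨K', hK'⟩ := osr (η ^ 2 / (p.1 : ℝ) ^ 2) (by positivity) p.1
    refine ⟨⟨K' + 1, by omega⟩, fun {α β} S T A hA c hc => ?_⟩
    obtain ⟨c', h1, h2, h3⟩ := hK' S T A hA c hc
    exact ⟨c', fun s => (h1 s).trans (by simp), h2, h3⟩
  choose next hnext using hstep
  let Ks : ℕ → {K : ℕ // 0 < K} := fun k => Nat.rec ⟨1, one_pos⟩ (fun _ p => next p) k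
  have hKs : ∀ k, Ks (k + 1) = next (Ks k) := fun k => rfl
  set β : ℝ := (δ * γ / 8) ^ 2 with hβ
  have hβ0 : 0 < β := by positivity
  obtain ⟨m, hm⟩ := exists_nat_ge (1 / β)
  have hm' : 1 ≤ m * β := by
    rwa [div_le_iff₀ hβ0] at hm
  -- a bound for all numbers of colours
  obtain ⟨B, hB⟩ : ∃ B : ℝ, ∀ k < m, ((Ks k).1 : ℝ) ≤ B := by
    refine ⟨∑ k ∈ Finset.range m, ((Ks k).1 : ℝ), fun k hk => ?_⟩
    exact Finset.single_le_sum (f := fun k => ((Ks k).1 : ℝ)) (fun _ _ => Nat.cast_nonneg _)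
      (Finset.mem_range.mpr hk)
  obtain ⟨n₀, hn₀⟩ := exists_nat_ge (2 * B / (δ ^ 2 * γ))
  refine ⟨n₀ + 1, fun n hn H hl hf S T hS hT => ?_⟩
  have hnpos : (0 : ℝ) < n := by
    have : 0 < n := by omega
    exact_mod_cast this
  have hS0 : (0 : ℝ) < S.card := lt_of_lt_of_le (by positivity) hS
  have hT0 : (0 : ℝ) < T.card := lt_of_lt_of_le (by positivity) hT
  -- the sequence of colourings
  have hA : ∀ s t : Fin n, 0 ≤ adj H s t ∧ adj H s t ≤ 1 :=
    fun s t => ⟨adj_nonneg' H s t, adj_le_one' H s t⟩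
  have hcol : ∀ (k : ℕ) (c : {c : Fin n → ℕ // ∀ s, c s < (Ks k).1}),
      ∃ c' : {c : Fin n → ℕ // ∀ s, c s < (Ks (k + 1)).1}, Refines c'.1 c.1 ∧
        ∀ g : Fin n → ℝ, (∀ t, 0 ≤ g t ∧ g t ≤ 1) →
          ∑ s ∈ S, |∑ t ∈ T, adj H s t * g t
            - ce S c'.1 (fun u => ∑ t ∈ T, adj H u t * g t) s|
            ≤ (η ^ 2 / ((Ks k).1 : ℝ) ^ 2) * S.card * T.card := by
    intro k c
    obtain ⟨c', h1, h2, h3⟩ := hnext (Ks k) S T (adj H) hA c.1 c.2
    exact ⟨⟨c', h1⟩, h2, h3⟩
  choose nc hnc using hcol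
  let cs : ∀ k : ℕ, {c : Fin n → ℕ // ∀ s, c s < (Ks k).1} := fun k =>
    Nat.rec (motive := fun k => {c : Fin n → ℕ // ∀ s, c s < (Ks k).1})
      ⟨fun _ => 0, fun _ => one_pos⟩ (fun k c => nc k c) k
  have hcs : ∀ k, cs (k + 1) = nc k (cs k) := fun k => rfl
  -- pigeonhole
  have hpig : ∃ k < m, energy H S T (cs (k + 1)).1 - energy H S T (cs k).1
      ≤ β * (n * S.card) := by
    by_contra hcon
    push Not at hcon
    have h1 : ∀ j ≤ m, (j : ℝ) * (β * (n * S.card)) ≤ energy H S T (cs j).1 := by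
      intro j
      induction j with
      | zero => intro _; simpa using energy_nonneg H S T _
      | succ j ih =>
        intro hj
        have h2 := ih (by omega)
        have h3 := hcon j (by omega)
        push_cast
        linarith
    have hmpos : 0 < m := by
      rcases Nat.eq_zero_or_pos m with h | h
      · exfalso; rw [h] at hm'; simp at hm'; linarith
      · exact h
    obtain ⟨j, rfl⟩ : ∃ j, m = j + 1 := ⟨m - 1, by omega⟩
    have h2 := h1 j (by omega)
    have h3 := hcon j (by omega)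
    have h4 := energy_le H hl S T (cs (j + 1)).1
    rw [Fintype.card_fin] at h4
    have h5 : ((j : ℝ) + 1) * β * (n * S.card) ≥ 1 * (n * S.card) := by
      refine mul_le_mul_of_nonneg_right ?_ (by positivity)
      push_cast at hm'
      exact hm'
    nlinarith
  obtain ⟨k, hk, hen⟩ := hpig
  have hKpos : (0 : ℝ) < ((Ks k).1 : ℝ) := by exact_mod_cast (Ks k).2
  set K : ℝ := ((Ks k).1 : ℝ) with hK
  have hmain := c1_step H hl hf S T (cs k).1 (cs (k + 1)).1 (Ks k).1 (cs k).2
    (by rw [hcs]; exact (hnc k (cs k)).1) (η ^ 2 / K ^ 2) (η * S.card / K)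
    (by positivity) (by positivity) (by rw [hcs]; exact (hnc k (cs k)).2)
  rw [Fintype.card_fin] at hmain
  have hsqrt : Real.sqrt ((n : ℝ) * S.card *
      (energy H S T (cs (k + 1)).1 - energy H S T (cs k).1)) ≤ δ * γ / 8 * (n * S.card) := by
    have h1 : (n : ℝ) * S.card * (energy H S T (cs (k + 1)).1 - energy H S T (cs k).1)
        ≤ (δ * γ / 8 * (n * S.card)) ^ 2 := by
      calc (n : ℝ) * S.card * (energy H S T (cs (k + 1)).1 - energy H S T (cs k).1)
          ≤ (n : ℝ) * S.card * (β * (n * S.card)) :=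
            mul_le_mul_of_nonneg_left hen (by positivity)
        _ = (δ * γ / 8 * (n * S.card)) ^ 2 := by rw [hβ]; ring
    calc Real.sqrt _ ≤ Real.sqrt ((δ * γ / 8 * (n * S.card)) ^ 2) := Real.sqrt_le_sqrt h1
      _ = _ := Real.sqrt_sq (by positivity)
  have hquad : (n : ℝ) * K * (1 / 2 + η ^ 2 / K ^ 2 * S.card * T.card / (η * S.card / K)
      + η * S.card / K) = n * K / 2 + η * n * T.card + η * n * S.card := by
    field_simp
  rw [hquad] at hmain
  set X : ℝ := ∑ s ∈ S, ∑ t ∈ T, adj H s t with hX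
  have hX0 : 0 ≤ X := Finset.sum_nonneg fun s _ => Finset.sum_nonneg fun t _ => adj_nonneg' H s t
  set P : ℝ := (S.card : ℝ) * T.card with hP
  have hP0 : 0 < P := by positivity
  -- the error terms
  have e1 : n * K / 2 ≤ γ / 4 * P := by
    have h1 : K ≤ B := hB k hk
    have h2 : (δ * n) * (δ * n) ≤ P := by
      rw [hP]
      exact mul_le_mul hS hT (by positivity) hS0.le
    have h3 : 2 * B ≤ (n : ℝ) * (δ ^ 2 * γ) := by
      rw [div_le_iff₀ (by positivity)] at hn₀
      have h4 : (n₀ : ℝ) ≤ n := by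
        have : n₀ ≤ n := by omega
        exact_mod_cast this
      calc 2 * B ≤ n₀ * (δ ^ 2 * γ) := hn₀
        _ ≤ n * (δ ^ 2 * γ) := mul_le_mul_of_nonneg_right h4 (by positivity)
    calc n * K / 2 ≤ n * B / 2 := by
          have := mul_le_mul_of_nonneg_left h1 hnpos.le
          linarith
      _ ≤ n * (n * (δ ^ 2 * γ)) / 4 := by
          have := mul_le_mul_of_nonneg_left h3 hnpos.le
          nlinarith
      _ = γ / 4 * ((δ * n) * (δ * n)) := by ring
      _ ≤ γ / 4 * P := mul_le_mul_of_nonneg_left h2 (by positivity)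
  have e2 : η * n * T.card ≤ γ / 16 * P := by
    calc η * n * T.card = γ / 16 * ((δ * n) * T.card) := by rw [hη]; ring
      _ ≤ γ / 16 * (S.card * T.card) := by
          refine mul_le_mul_of_nonneg_left ?_ (by positivity)
          exact mul_le_mul_of_nonneg_right hS hT0.le
  have e3 : η * n * S.card ≤ γ / 16 * P := by
    calc η * n * S.card = γ / 16 * (S.card * (δ * n)) := by rw [hη]; ring
      _ ≤ γ / 16 * (S.card * T.card) := by
          refine mul_le_mul_of_nonneg_left ?_ (by positivity)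
          exact mul_le_mul_of_nonneg_left hT hS0.le
  have e4 : δ * γ / 8 * (n * S.card) ≤ γ / 8 * P := by
    calc δ * γ / 8 * (n * S.card) = γ / 8 * (S.card * (δ * n)) := by ring
      _ ≤ γ / 8 * (S.card * T.card) := by
          refine mul_le_mul_of_nonneg_left ?_ (by positivity)
          exact mul_le_mul_of_nonneg_left hT hS0.le
  have hfin : X ^ 2 ≤ P * (1 / 2 * X + γ / 2 * P) := by
    refine hmain.trans (mul_le_mul_of_nonneg_left ?_ hP0.le)
    linarith
  by_contra hcon
  push Not at hcon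
  have f1 : γ * P < X - P / 2 := by linarith
  have f2 : (1 / 2 + γ) * P * (γ * P) < X * (X - P / 2) :=
    mul_lt_mul'' hcon f1 (by positivity) (by positivity)
  have f3 : 0 < γ * P * (γ * P) := by positivity
  linarith

end C1

end Pool.Agent.Lib.MP_c82047_co18.Seven
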