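import Pool.Agent.Lib.MP_c82047_co18.Seven.Defs

/-!
# Counting triangles and cherries through a cut norm approximation
-/

namespace Pool.Agent.Lib.MP_c82047_co18.Seven

open Finset

section COUNT

variable {V : Type} [DecidableEq V] [Fintype V]

theorem abs_sum_le_card (F : V → ℝ) (M : ℝ) (h : ∀ z, |F z| ≤ M) :
    |∑ z, F z| ≤ (Fintype.card V : ℝ) * M := by
  calc |∑ z, F z| ≤ ∑ z, |F z| := abs_sum_le_sum_abs _ _
    _ ≤ ∑ _z : V, M := sum_le_sum fun z _ => h z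
    _ = _ := by simp

/-- triangles are counted up to `3 n δ` by a cut norm `δ` approximation -/
theorem count_triangles (A W : V → V → ℝ) (hA : ∀ s t, 0 ≤ A s t ∧ A s t ≤ 1)
    (hW : ∀ s t, 0 ≤ W s t ∧ W s t ≤ 1) (hAs : ∀ s t, A s t = A t s) (hWs : ∀ s t, W s t = W t s)
    (M : ℝ) (hcut : ∀ f g : V → ℝ, (∀ t, 0 ≤ f t ∧ f t ≤ 1) → (∀ t, 0 ≤ g t ∧ g t ≤ 1) →
      |∑ s, ∑ t, f s * (A s t - W s t) * g t| ≤ M) :
    |∑ x, ∑ y, ∑ z, A x y * A x z * A y z - ∑ x, ∑ y, ∑ z, W x y * W x z * W y z|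
      ≤ 3 * (Fintype.card V : ℝ) * M := by
  have e : ∑ x, ∑ y, ∑ z, A x y * A x z * A y z - ∑ x, ∑ y, ∑ z, W x y * W x z * W y z
      = ∑ z, ∑ x, ∑ y, A x z * (A x y - W x y) * A y z
        + ∑ y, ∑ x, ∑ z, W x y * (A x z - W x z) * A y z
        + ∑ x, ∑ y, ∑ z, W x y * (A y z - W y z) * W x z := by
    have r1 : ∑ z, ∑ x, ∑ y, A x z * (A x y - W x y) * A y z
        = ∑ x, ∑ y, ∑ z, A x z * (A x y - W x y) * A y z := by
      rw [sum_comm]
      exact sum_congr rfl fun x _ => sum_comm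
    have r2 : ∑ y, ∑ x, ∑ z, W x y * (A x z - W x z) * A y z
        = ∑ x, ∑ y, ∑ z, W x y * (A x z - W x z) * A y z := sum_comm
    rw [r1, r2]
    simp only [← sum_add_distrib, ← sum_sub_distrib]
    refine sum_congr rfl fun x _ => sum_congr rfl fun y _ => sum_congr rfl fun z _ => ?_
    ring
  have b1 := abs_sum_le_card (fun z => ∑ x, ∑ y, A x z * (A x y - W x y) * A y z) M
    fun z => hcut (fun x => A x z) (fun y => A y z) (fun t => hA t z) (fun t => hA t z)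
  have b2 := abs_sum_le_card (fun y => ∑ x, ∑ z, W x y * (A x z - W x z) * A y z) M
    fun y => hcut (fun x => W x y) (fun z => A y z) (fun t => hW t y) (fun t => hA y t)
  have b3 := abs_sum_le_card (fun x => ∑ y, ∑ z, W x y * (A y z - W y z) * W x z) M
    fun x => hcut (fun y => W x y) (fun z => W x z) (fun t => hW x t) (fun t => hW x t)
  rw [e]
  refine le_trans (abs_add_le _ _) ?_
  refine le_trans (add_le_add (abs_add_le _ _) le_rfl) ?_
  linarith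

theorem count_cherries (A W : V → V → ℝ) (hA : ∀ s t, 0 ≤ A s t ∧ A s t ≤ 1)
    (hW : ∀ s t, 0 ≤ W s t ∧ W s t ≤ 1) (hAs : ∀ s t, A s t = A t s) (hWs : ∀ s t, W s t = W t s)
    (M : ℝ) (hcut : ∀ f g : V → ℝ, (∀ t, 0 ≤ f t ∧ f t ≤ 1) → (∀ t, 0 ≤ g t ∧ g t ≤ 1) →
      |∑ s, ∑ t, f s * (A s t - W s t) * g t| ≤ M) :
    |∑ x, (∑ y, A x y) ^ 2 - ∑ x, (∑ y, W x y) ^ 2| ≤ 2 * (Fintype.card V : ℝ) * M := by
  have sqe : ∀ U : V → V → ℝ, ∑ x, (∑ y, U x y) ^ 2 = ∑ x, ∑ y, ∑ z, U x y * U x z := by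
    intro U
    refine sum_congr rfl fun x _ => ?_
    rw [sq, sum_mul_sum]
  have e : ∑ x, (∑ y, A x y) ^ 2 - ∑ x, (∑ y, W x y) ^ 2
      = ∑ z, ∑ x, ∑ y, A x z * (A x y - W x y) * 1 + ∑ y, ∑ x, ∑ z, W x y * (A x z - W x z) * 1 := by
    have r1 : ∑ z, ∑ x, ∑ y, A x z * (A x y - W x y) * 1
        = ∑ x, ∑ y, ∑ z, A x z * (A x y - W x y) * 1 := by
      rw [sum_comm]
      exact sum_congr rfl fun x _ => sum_comm
    have r2 : ∑ y, ∑ x, ∑ z, W x y * (A x z - W x z) * 1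
        = ∑ x, ∑ y, ∑ z, W x y * (A x z - W x z) * 1 := sum_comm
    rw [r1, r2, sqe A, sqe W]
    simp only [← sum_add_distrib, ← sum_sub_distrib]
    refine sum_congr rfl fun x _ => sum_congr rfl fun y _ => sum_congr rfl fun z _ => ?_
    ring
  have b1 := abs_sum_le_card (fun z => ∑ x, ∑ y, A x z * (A x y - W x y) * 1) M
    fun z => hcut (fun x => A x z) (fun _ => 1) (fun t => hA t z) (fun t => ⟨zero_le_one, le_rfl⟩)
  have b2 := abs_sum_le_card (fun y => ∑ x, ∑ z, W x y * (A x z - W x z) * 1) M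
    fun y => hcut (fun x => W x y) (fun _ => 1) (fun t => hW t y) (fun t => ⟨zero_le_one, le_rfl⟩)
  rw [e]
  refine le_trans (abs_add_le _ _) ?_
  linarith

end COUNT

end Pool.Agent.Lib.MP_c82047_co18.Seven
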