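import Mathlib

/-!
# Definitions for the three-colour (7,4) theorem

`H` is a system of triples. `tau H x y z = 1` if `{x, y, z}` is a triple of `H`, `adj H x y` is the
0/1 adjacency of the shadow graph, `ce S c F` is the average of `F` over the cells of the colouring
`c` inside `S`.
-/

namespace Pool.Agent.Lib.MP_c82047_co18.Seven

section

variable {V : Type*} [DecidableEq V]

/-- Linear triple systems. -/
structure Lin (H : Finset (Finset V)) : Prop where
  card3 : ∀ h ∈ H, h.card = 3
  lin : ∀ h ∈ H, ∀ k ∈ H, h ≠ k → (h ∩ k).card ≤ 1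

/-- No set of at most seven points contains four triples. -/
def Free74 (H : Finset (Finset V)) : Prop :=
  ∀ S : Finset V, S.card ≤ 7 → (H.filter (fun h => h ⊆ S)).card ≤ 3

/-- `tau H x y z = 1` if `{x, y, z}` is a triple of `H`, and `0` otherwise. -/
noncomputable def tau (H : Finset (Finset V)) (x y z : V) : ℝ :=
  if ({x, y, z} : Finset V) ∈ H then 1 else 0

/-- `adj H x y = 1` if `x ≠ y` lie on a common triple of `H`, and `0` otherwise. -/
noncomputable def adj (H : Finset (Finset V)) (x y : V) : ℝ :=
  if x ≠ y ∧ ∃ h ∈ H, x ∈ h ∧ y ∈ h then 1 else 0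

end

section

variable {α ι : Type*} [DecidableEq ι]

/-- The average of `F` over the points `u ∈ S` with `c u = c s`. -/
noncomputable def ce (S : Finset α) (c : α → ι) (F : α → ℝ) (s : α) : ℝ :=
  (∑ u ∈ S.filter (fun u => c u = c s), F u) / ((S.filter (fun u => c u = c s)).card : ℝ)

/-- `c'` refines `c`. -/
def Refines {κ : Type*} (c' : α → κ) (c : α → ι) : Prop := ∀ s u, c' s = c' u → c s = c u

end

end Pool.Agent.Lib.MP_c82047_co18.Seven
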