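import Pool.Agent.Lib.MP_c82047_co18.Seven.HALF

/-!
# Few triangles
-/

namespace Pool.Agent.Lib.MP_c82047_co18.Seven

open Finset

section F1

variable {V : Type*} [DecidableEq V] [Fintype V]

/-- The pointwise inequality behind `few_triangles`. -/
theorem few_point (H : Finset (Finset V)) (hl : Lin H) (hf : Free74 H) (x y s z t : V) :
    tau H x y s * tau H x z t * (adj H y z + adj H y t + adj H s z + adj H s t) ≤
      tau H x y s * tau H x z t + (tau H x y s * (if y = z then 1 else 0) *
        (if s = t then 1 else 0) + tau H x y s * (if s = z then 1 else 0) *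
        (if y = t then 1 else 0)) := by
  have p1 : ∀ a b c d : V, (0 : ℝ) ≤ (if a = b then 1 else 0) * (if c = d then 1 else 0) := by
    intro a b c d
    split_ifs <;> norm_num
  by_cases h1 : ({x, y, s} : Finset V) ∈ H
  · by_cases h2 : ({x, z, t} : Finset V) ∈ H
    · have e1 : tau H x y s = 1 := by unfold tau; rw [if_pos h1]
      have e2 : tau H x z t = 1 := by unfold tau; rw [if_pos h2]
      rw [e1, e2]
      by_cases he : ({x, y, s} : Finset V) = {x, z, t}
      · rcases triple_eq_cases H hl x y s z t h2 he with ⟨h3, h4⟩ | ⟨h3, h4⟩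
        · subst h3 h4
          have h5 := p1 t z z t
          rw [adj_self, adj_self]
          simp only [if_true]
          have := (adj_bounds H z t).2
          have := (adj_bounds H t z).2
          linarith
        · subst h3 h4
          have h5 := p1 t z z t
          rw [adj_self, adj_self]
          simp only [if_true]
          have := (adj_bounds H z t).2
          have := (adj_bounds H t z).2
          linarith
      · have h3 := loc H hl hf x y s z t h1 h2 he
        have h4 := p1 y z s t
        have h5 := p1 s z y t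
        linarith
    · have e2 : tau H x z t = 0 := by unfold tau; rw [if_neg h2]
      rw [e2]
      have h5 := (tau_bounds H x y s).1
      have h6 := mul_nonneg h5 (p1 y z s t)
      have h7 := mul_nonneg h5 (p1 s z y t)
      linarith
  · have e1 : tau H x y s = 0 := by unfold tau; rw [if_neg h1]
    rw [e1]
    linarith

/-- The inequality for one point `x`. -/
theorem few_local (H : Finset (Finset V)) (hl : Lin H) (hf : Free74 H) (x : V) :
    4 * ∑ y, ∑ z, adj H x y * adj H x z * adj H y z ≤
      (∑ y, adj H x y) ^ 2 + 2 * ∑ y, adj H x y := by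
  have hA : ∀ F : V → V → ℝ, ∑ y, ∑ z, adj H x y * adj H x z * F y z =
      ∑ y, ∑ s, ∑ z, ∑ t, tau H x y s * tau H x z t * F y z := by
    intro F
    refine sum_congr rfl fun y _ => ?_
    rw [sum_comm]
    refine sum_congr rfl fun z _ => ?_
    rw [← sum_tau H hl x y, ← sum_tau H hl x z, mul_assoc, sum_mul]
    refine sum_congr rfl fun s _ => ?_
    rw [sum_mul, mul_sum]
    refine sum_congr rfl fun t _ => ?_
    ring
  -- exchange of the two partners
  have hB : ∀ F : V → V → V → V → ℝ, ∑ y, ∑ s, ∑ z, ∑ t, tau H x y s * tau H x z t * F y s z t =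
      ∑ y, ∑ s, ∑ z, ∑ t, tau H x y s * tau H x z t * F s y z t := by
    intro F
    rw [sum_comm]
    refine sum_congr rfl fun y _ => sum_congr rfl fun s _ => sum_congr rfl fun z _ =>
      sum_congr rfl fun t _ => ?_
    rw [tau_swap23 H x s y]
  have hC : ∀ F : V → V → V → V → ℝ, ∑ y, ∑ s, ∑ z, ∑ t, tau H x y s * tau H x z t * F y s z t =
      ∑ y, ∑ s, ∑ z, ∑ t, tau H x y s * tau H x z t * F y s t z := by
    intro F
    refine sum_congr rfl fun y _ => sum_congr rfl fun s _ => ?_
    rw [sum_comm]
    refine sum_congr rfl fun z _ => sum_congr rfl fun t _ => ?_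
    rw [tau_swap23 H x t z]
  have e1 := hA fun y z => adj H y z
  have e2 := hB fun y s z t => adj H y z
  have e3 := hC fun y s z t => adj H y z
  have e4 := hC fun y s z t => adj H s z
  have h5 : ∑ y, ∑ s, ∑ z, ∑ t, tau H x y s * tau H x z t *
      (adj H y z + adj H y t + adj H s z + adj H s t) ≤ ∑ y, ∑ s, ∑ z, ∑ t,
      (tau H x y s * tau H x z t + (tau H x y s * (if y = z then 1 else 0) *
        (if s = t then 1 else 0) + tau H x y s * (if s = z then 1 else 0) *
        (if y = t then 1 else 0))) :=
    sum_le_sum fun y _ => sum_le_sum fun s _ => sum_le_sum fun z _ => sum_le_sum fun t _ =>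
      few_point H hl hf x y s z t
  have h6 : ∑ y, ∑ s, ∑ z, ∑ t, tau H x y s * tau H x z t *
      (adj H y z + adj H y t + adj H s z + adj H s t) =
      ∑ y, ∑ s, ∑ z, ∑ t, tau H x y s * tau H x z t * adj H y z +
      ∑ y, ∑ s, ∑ z, ∑ t, tau H x y s * tau H x z t * adj H y t +
      ∑ y, ∑ s, ∑ z, ∑ t, tau H x y s * tau H x z t * adj H s z +
      ∑ y, ∑ s, ∑ z, ∑ t, tau H x y s * tau H x z t * adj H s t := by
    simp only [mul_add, sum_add_distrib]
  have h7 : ∑ y, ∑ s, ∑ z, ∑ t,
      (tau H x y s * tau H x z t + (tau H x y s * (if y = z then 1 else 0) *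
        (if s = t then 1 else 0) + tau H x y s * (if s = z then 1 else 0) *
        (if y = t then 1 else 0))) =
      (∑ y, adj H x y) ^ 2 + 2 * ∑ y, adj H x y := by
    simp only [sum_add_distrib]
    have k1 : ∑ y, ∑ s, ∑ z, ∑ t, tau H x y s * tau H x z t = (∑ y, adj H x y) ^ 2 := by
      rw [pow_two, sum_mul]
      refine sum_congr rfl fun y _ => ?_
      rw [← sum_tau H hl x y, sum_mul]
      refine sum_congr rfl fun s _ => ?_
      rw [mul_sum]
      refine sum_congr rfl fun z _ => ?_
      rw [← sum_tau H hl x z, mul_sum]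
    have k2 : ∑ y, ∑ s, ∑ z, ∑ t, tau H x y s * (if y = z then (1 : ℝ) else 0) *
        (if s = t then 1 else 0) = ∑ y, adj H x y := by
      refine sum_congr rfl fun y _ => ?_
      rw [← sum_tau H hl x y]
      refine sum_congr rfl fun s _ => ?_
      have : ∀ z ∈ (univ : Finset V), ∑ t, tau H x y s * (if y = z then (1 : ℝ) else 0) *
          (if s = t then 1 else 0) = tau H x y s * (if y = z then 1 else 0) := by
        intro z _
        rw [← mul_sum, sum_ite_eq univ s fun _ => (1 : ℝ), if_pos (mem_univ _), mul_one]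
      rw [sum_congr rfl this, ← mul_sum, sum_ite_eq univ y fun _ => (1 : ℝ),
        if_pos (mem_univ _), mul_one]
    have k3 : ∑ y, ∑ s, ∑ z, ∑ t, tau H x y s * (if s = z then (1 : ℝ) else 0) *
        (if y = t then 1 else 0) = ∑ y, adj H x y := by
      refine sum_congr rfl fun y _ => ?_
      rw [← sum_tau H hl x y]
      refine sum_congr rfl fun s _ => ?_
      have : ∀ z ∈ (univ : Finset V), ∑ t, tau H x y s * (if s = z then (1 : ℝ) else 0) *
          (if y = t then 1 else 0) = tau H x y s * (if s = z then 1 else 0) := by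
        intro z _
        rw [← mul_sum, sum_ite_eq univ y fun _ => (1 : ℝ), if_pos (mem_univ _), mul_one]
      rw [sum_congr rfl this, ← mul_sum, sum_ite_eq univ s fun _ => (1 : ℝ),
        if_pos (mem_univ _), mul_one]
    rw [k1, k2, k3]
    ring
  rw [h6, h7, ← e3, ← e4, ← e2, ← e1] at h5
  linarith

theorem few_triangles (H : Finset (Finset V)) (hl : Lin H) (hf : Free74 H) :
    ∑ x, ∑ y, ∑ z, adj H x y * adj H x z * adj H y z
      ≤ (1 / 4) * ∑ x, (∑ y, adj H x y) ^ 2 + (Fintype.card V : ℝ) ^ 2 := by
  have h1 : ∀ x ∈ (univ : Finset V), ∑ y, ∑ z, adj H x y * adj H x z * adj H y z ≤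
      (1 / 4) * (∑ y, adj H x y) ^ 2 + (Fintype.card V : ℝ) := by
    intro x _
    have h2 := few_local H hl hf x
    have h3 : ∑ y, adj H x y ≤ (Fintype.card V : ℝ) := by
      calc ∑ y, adj H x y ≤ ∑ _y : V, (1 : ℝ) := sum_le_sum fun y _ => (adj_bounds H x y).2
        _ = (Fintype.card V : ℝ) := by simp
    have h4 : (0 : ℝ) ≤ (Fintype.card V : ℝ) := Nat.cast_nonneg _
    linarith
  calc _ ≤ ∑ x : V, ((1 / 4) * (∑ y, adj H x y) ^ 2 + (Fintype.card V : ℝ)) := sum_le_sum h1
    _ = (1 / 4) * ∑ x, (∑ y, adj H x y) ^ 2 + (Fintype.card V : ℝ) ^ 2 := by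
      rw [sum_add_distrib, ← mul_sum]
      simp
      ring

end F1

end Pool.Agent.Lib.MP_c82047_co18.Seven
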