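import Pool.Agent.Lib.MP_c82047_co18.Seven.Defs
import Pool.Agent.Lib.MP_c82047_co18.Seven.CE

/-! Module FK of the three-colour (7,4) theorem: the cut norm approximation. -/

namespace Pool.Agent.Lib.MP_c82047_co18.Seven

open Finset

section FK

variable {V : Type} [DecidableEq V] [Fintype V]

/-- the step function of the colouring `c` -/
noncomputable def stepf (c : V → ℕ) (A : V → V → ℝ) (x y : V) : ℝ :=
  ce univ c (fun u => ce univ c (fun v => A u v) y) x

theorem stepf_bounds (c : V → ℕ) (A : V → V → ℝ) (hA : ∀ s t, 0 ≤ A s t ∧ A s t ≤ 1) (x y : V) :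
    0 ≤ stepf c A x y ∧ stepf c A x y ≤ 1 := by
  unfold stepf
  constructor
  · exact ce_nonneg _ _ _ (fun u _ => ce_nonneg _ _ _ (fun v _ => (hA u v).1) y) x
  · exact ce_le_one _ _ _ (fun u _ => ce_le_one _ _ _ (fun v _ => (hA u v).2) y) x

theorem stepf_eq (c : V → ℕ) (A : V → V → ℝ) (x y : V) :
    stepf c A x y = (∑ u ∈ univ.filter (fun u => c u = c x), ∑ v ∈ univ.filter (fun v => c v = c y),
      A u v) / (((univ.filter (fun u => c u = c x)).card : ℝ)
        * ((univ.filter (fun v => c v = c y)).card : ℝ)) := by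
  unfold stepf ce
  rw [← sum_div, div_div, mul_comm]

theorem stepf_symm (c : V → ℕ) (A : V → V → ℝ) (hA : ∀ s t, A s t = A t s) (x y : V) :
    stepf c A x y = stepf c A y x := by
  rw [stepf_eq, stepf_eq, sum_comm, mul_comm]
  congr 1
  exact sum_congr rfl fun u _ => sum_congr rfl fun v _ => hA v u

theorem ce_univ_sum (c : V → ℕ) (F : V → ℝ) : ∑ s, ce univ c F s = ∑ s, F s := by
  have := ce_mul_const univ c F (fun _ => 1) (fun _ _ _ _ _ => rfl)
  simpa using this

theorem stepf_sum (c : V → ℕ) (A : V → V → ℝ) :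
    ∑ x, ∑ y, stepf c A x y = ∑ x, ∑ y, A x y := by
  unfold stepf
  rw [sum_comm]
  calc ∑ y, ∑ x, ce univ c (fun u => ce univ c (fun v => A u v) y) x
      = ∑ y, ∑ x, ce univ c (fun v => A x v) y := sum_congr rfl fun y _ => ce_univ_sum c _
    _ = ∑ x, ∑ y, ce univ c (fun v => A x v) y := sum_comm
    _ = ∑ x, ∑ y, A x y := sum_congr rfl fun x _ => ce_univ_sum c _

theorem stepf_add_le (c : V → ℕ) (A : Fin 3 → V → V → ℝ) (h : ∀ x y, ∑ i, A i x y ≤ 1) (x y : V) :
    ∑ i, stepf c (A i) x y ≤ 1 := by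
  simp_rw [stepf_eq]
  rw [← sum_div]
  refine div_le_one_of_le₀ ?_ (by positivity)
  rw [sum_comm]
  calc ∑ u ∈ univ.filter (fun u => c u = c x), ∑ i, ∑ v ∈ univ.filter (fun v => c v = c y), A i u v
      ≤ ∑ u ∈ univ.filter (fun u => c u = c x), ∑ v ∈ univ.filter (fun v => c v = c y), (1 : ℝ) := by
        refine sum_le_sum fun u _ => ?_
        rw [sum_comm]
        exact sum_le_sum fun v _ => h u v
    _ = _ := by
        simp only [sum_const, nsmul_eq_mul, mul_one]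

theorem cut_close (c : V → ℕ) (A : V → V → ℝ) (hA : ∀ s t, 0 ≤ A s t ∧ A s t ≤ 1)
    (hs : ∀ s t, A s t = A t s) (M : ℝ)
    (hreg : ∀ g : V → ℝ, (∀ t, 0 ≤ g t ∧ g t ≤ 1) →
          ∑ s, |∑ t, A s t * g t - ce univ c (fun u => ∑ t, A u t * g t) s| ≤ M)
    (f g : V → ℝ) (hf : ∀ t, 0 ≤ f t ∧ f t ≤ 1) (hg : ∀ t, 0 ≤ g t ∧ g t ≤ 1) :
    |∑ s, ∑ t, f s * (A s t - stepf c A s t) * g t| ≤ 2 * M := by
  classical
  set E : (V → ℝ) → V → ℝ := ce univ c with hE
  have adj1 : ∀ F G : V → ℝ, ∑ s, E F s * G s = ∑ s, F s * E G s := fun F G => ce_adj univ c F G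
  set f' : V → ℝ := E f with hf'
  set g' : V → ℝ := E g with hg'
  have hf'1 : ∀ t, 0 ≤ f' t ∧ f' t ≤ 1 := fun t =>
    ⟨ce_nonneg _ _ _ (fun s _ => (hf s).1) t, ce_le_one _ _ _ (fun s _ => (hf s).2) t⟩
  set ψ : (V → ℝ) → V → ℝ := fun g s => ∑ t, A s t * g t with hψ
  -- the bound against a function with values in `[0, 1]`
  have hB : ∀ h g : V → ℝ, (∀ t, 0 ≤ h t ∧ h t ≤ 1) → (∀ t, 0 ≤ g t ∧ g t ≤ 1) →
      |∑ s, h s * (ψ g s - E (ψ g) s)| ≤ M := by
    intro h g hh hg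
    refine le_trans (abs_sum_le_sum_abs _ _) (le_trans (sum_le_sum fun s _ => ?_) (hreg g hg))
    rw [abs_mul, abs_of_nonneg (hh s).1]
    calc h s * |ψ g s - E (ψ g) s| ≤ 1 * |ψ g s - E (ψ g) s| :=
        mul_le_mul_of_nonneg_right (hh s).2 (abs_nonneg _)
      _ = _ := by rw [one_mul]
  have hstep : ∀ s, ∑ t, stepf c A s t * g t = E (ψ g') s := by
    intro s
    have e : (fun u => ∑ t, ce univ c (fun v => A u v) t * g t) = ψ g' := by
      funext u
      simp only [hψ, hg', hE]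
      exact ce_adj univ c (fun v => A u v) g
    calc ∑ t, stepf c A s t * g t
        = ∑ t, ce univ c (fun u => ce univ c (fun v => A u v) t) s * g t := rfl
      _ = ce univ c (fun u => ∑ t, ce univ c (fun v => A u v) t * g t) s :=
        (ce_sum univ univ c (fun t u => ce univ c (fun v => A u v) t) g s).symm
      _ = E (ψ g') s := by rw [e]
  have hsplit : ∑ s, ∑ t, f s * (A s t - stepf c A s t) * g t
      = ∑ s, f s * (ψ g s - E (ψ g) s) + ∑ t, g t * (ψ f' t - E (ψ f') t) := by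
    have e1 : ∀ s, ∑ t, f s * (A s t - stepf c A s t) * g t = f s * (ψ g s - E (ψ g') s) := by
      intro s
      rw [← hstep s]
      simp only [hψ]
      rw [← sum_sub_distrib, mul_sum]
      exact sum_congr rfl fun t _ => by ring
    have e2 : ∑ s, f s * E (ψ g) s = ∑ s, f' s * ψ g s := (adj1 f (ψ g)).symm
    have e3 : ∑ s, f s * E (ψ g') s = ∑ s, f' s * ψ g' s := (adj1 f (ψ g')).symm
    have e4 : ∀ k : V → ℝ, ∑ s, f' s * ψ k s = ∑ t, k t * ψ f' t := by
      intro k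
      simp only [hψ, mul_sum]
      rw [sum_comm]
      refine sum_congr rfl fun t _ => sum_congr rfl fun s _ => ?_
      rw [hs s t]; ring
    have e5 : ∑ t, g' t * ψ f' t = ∑ t, g t * E (ψ f') t := adj1 g (ψ f')
    rw [sum_congr rfl fun s _ => e1 s]
    simp only [mul_sub, sum_sub_distrib]
    rw [e2, e3, e4 g, e4 g', e5]
    ring
  rw [hsplit]
  calc |∑ s, f s * (ψ g s - E (ψ g) s) + ∑ t, g t * (ψ f' t - E (ψ f') t)|
      ≤ |∑ s, f s * (ψ g s - E (ψ g) s)| + |∑ t, g t * (ψ f' t - E (ψ f') t)| := abs_add_le _ _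
    _ ≤ M + M := add_le_add (hB f g hf hg) (hB g f' hg hf'1)
    _ = 2 * M := by ring

end FK

end Pool.Agent.Lib.MP_c82047_co18.Seven
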