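import Pool.Agent.Lib.MP_c82047_co18.Seven.Defs

/-!
# Replacing a kernel by a kernel close in L1
-/

namespace Pool.Agent.Lib.MP_c82047_co18.Seven

open Finset

section L1

variable {V : Type} [Fintype V]

theorem l1_triangles (W W' : V → V → ℝ) (hW : ∀ s t, 0 ≤ W s t ∧ W s t ≤ 1)
    (hW' : ∀ s t, 0 ≤ W' s t ∧ W' s t ≤ 1) :
    |∑ x, ∑ y, ∑ z, W x y * W x z * W y z - ∑ x, ∑ y, ∑ z, W' x y * W' x z * W' y z|
      ≤ 3 * (Fintype.card V : ℝ) * ∑ x, ∑ y, |W x y - W' x y| := by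
  have hpt : ∀ x y z, |W x y * W x z * W y z - W' x y * W' x z * W' y z|
      ≤ |W x y - W' x y| + |W x z - W' x z| + |W y z - W' y z| := by
    intro x y z
    have e : W x y * W x z * W y z - W' x y * W' x z * W' y z
        = (W x y - W' x y) * (W x z * W y z) + (W x z - W' x z) * (W' x y * W y z)
          + (W y z - W' y z) * (W' x y * W' x z) := by ring
    have hb : ∀ a p q : ℝ, 0 ≤ p ∧ p ≤ 1 → 0 ≤ q ∧ q ≤ 1 → |a * (p * q)| ≤ |a| := by
      intro a p q hp hq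
      rw [abs_mul, abs_of_nonneg (mul_nonneg hp.1 hq.1)]
      have : p * q ≤ 1 := mul_le_one₀ hp.2 hq.1 hq.2
      nlinarith [abs_nonneg a, mul_nonneg hp.1 hq.1]
    rw [e]
    refine le_trans (abs_add_le _ _) ?_
    refine le_trans (add_le_add (abs_add_le _ _) le_rfl) ?_
    exact add_le_add (add_le_add (hb _ _ _ (hW x z) (hW y z)) (hb _ _ _ (hW' x y) (hW y z)))
      (hb _ _ _ (hW' x y) (hW' x z))
  have s1 : ∑ x : V, ∑ y : V, ∑ _z : V, |W x y - W' x y|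
      = (Fintype.card V : ℝ) * ∑ x, ∑ y, |W x y - W' x y| := by
    simp only [sum_const, card_univ, nsmul_eq_mul, mul_sum]
  have s2 : ∑ x : V, ∑ _y : V, ∑ z : V, |W x z - W' x z|
      = (Fintype.card V : ℝ) * ∑ x, ∑ y, |W x y - W' x y| := by
    simp only [sum_const, card_univ, nsmul_eq_mul, mul_sum]
  have s3 : ∑ _x : V, ∑ y : V, ∑ z : V, |W y z - W' y z|
      = (Fintype.card V : ℝ) * ∑ x, ∑ y, |W x y - W' x y| := by
    simp only [sum_const, card_univ, nsmul_eq_mul, mul_sum]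
  calc |∑ x, ∑ y, ∑ z, W x y * W x z * W y z - ∑ x, ∑ y, ∑ z, W' x y * W' x z * W' y z|
      = |∑ x, ∑ y, ∑ z, (W x y * W x z * W y z - W' x y * W' x z * W' y z)| := by
        simp only [sum_sub_distrib]
    _ ≤ ∑ x, ∑ y, ∑ z, |W x y * W x z * W y z - W' x y * W' x z * W' y z| := by
        refine le_trans (abs_sum_le_sum_abs _ _) (sum_le_sum fun x _ => ?_)
        refine le_trans (abs_sum_le_sum_abs _ _) (sum_le_sum fun y _ => ?_)
        exact abs_sum_le_sum_abs _ _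
    _ ≤ ∑ x, ∑ y, ∑ z, (|W x y - W' x y| + |W x z - W' x z| + |W y z - W' y z|) :=
        sum_le_sum fun x _ => sum_le_sum fun y _ => sum_le_sum fun z _ => hpt x y z
    _ = 3 * (Fintype.card V : ℝ) * ∑ x, ∑ y, |W x y - W' x y| := by
        simp only [sum_add_distrib] at *
        rw [s1, s2, s3]
        ring

theorem l1_cherries (W W' : V → V → ℝ) (hW : ∀ s t, 0 ≤ W s t ∧ W s t ≤ 1)
    (hW' : ∀ s t, 0 ≤ W' s t ∧ W' s t ≤ 1) :
    |∑ x, (∑ y, W x y) ^ 2 - ∑ x, (∑ y, W' x y) ^ 2|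
      ≤ 2 * (Fintype.card V : ℝ) * ∑ x, ∑ y, |W x y - W' x y| := by
  have hpt : ∀ x, |(∑ y, W x y) ^ 2 - (∑ y, W' x y) ^ 2|
      ≤ 2 * (Fintype.card V : ℝ) * ∑ y, |W x y - W' x y| := by
    intro x
    have h1 : (∑ y, W x y) ^ 2 - (∑ y, W' x y) ^ 2
        = (∑ y, W x y + ∑ y, W' x y) * ∑ y, (W x y - W' x y) := by
      rw [sum_sub_distrib]; ring
    have bd : ∀ U : V → V → ℝ, (∀ s t, 0 ≤ U s t ∧ U s t ≤ 1) →
        0 ≤ ∑ y, U x y ∧ ∑ y, U x y ≤ (Fintype.card V : ℝ) := by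
      intro U hU
      refine ⟨sum_nonneg fun y _ => (hU x y).1, ?_⟩
      calc ∑ y, U x y ≤ ∑ _y : V, (1 : ℝ) := sum_le_sum fun y _ => (hU x y).2
        _ = _ := by simp
    have b1 := bd W hW
    have b2 := bd W' hW'
    rw [h1, abs_mul, abs_of_nonneg (by linarith)]
    exact mul_le_mul (by linarith) (abs_sum_le_sum_abs _ _) (abs_nonneg _) (by
      have : (0 : ℝ) ≤ Fintype.card V := Nat.cast_nonneg _
      linarith)
  calc |∑ x, (∑ y, W x y) ^ 2 - ∑ x, (∑ y, W' x y) ^ 2|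
      = |∑ x, ((∑ y, W x y) ^ 2 - (∑ y, W' x y) ^ 2)| := by rw [sum_sub_distrib]
    _ ≤ ∑ x, |(∑ y, W x y) ^ 2 - (∑ y, W' x y) ^ 2| := abs_sum_le_sum_abs _ _
    _ ≤ ∑ x, 2 * (Fintype.card V : ℝ) * ∑ y, |W x y - W' x y| := sum_le_sum fun x _ => hpt x
    _ = _ := by rw [← mul_sum]

end L1

end Pool.Agent.Lib.MP_c82047_co18.Seven
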