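import Pool.Agent.Lib.MP_c82047_co18.Seven.OSR
import Pool.Agent.Lib.MP_c82047_co18.Seven.C1
import Pool.Agent.Lib.MP_c82047_co18.Seven.F1
import Pool.Agent.Lib.MP_c82047_co18.Seven.FK
import Pool.Agent.Lib.MP_c82047_co18.Seven.COUNT
import Pool.Agent.Lib.MP_c82047_co18.Seven.L1
import Pool.Agent.Lib.MP_c82047_co18.Seven.ALG

/-!
# The three-colour (7,4) theorem: assembly
-/

namespace Pool.Agent.Lib.MP_c82047_co18.Seven

open Finset

section FINAL

variable {V : Type} [DecidableEq V] [Fintype V]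

/-- number of triangles -/
noncomputable def tri (W : V → V → ℝ) : ℝ := ∑ x, ∑ y, ∑ z, W x y * W x z * W y z

/-- number of cherries -/
noncomputable def che (W : V → V → ℝ) : ℝ := ∑ x, (∑ y, W x y) ^ 2

omit [DecidableEq V] in
theorem adj_bounds' [DecidableEq V] (H : Finset (Finset V)) (s t : V) :
    0 ≤ adj H s t ∧ adj H s t ≤ 1 := by
  unfold adj
  split_ifs <;> norm_num

theorem e1 (H : Finset (Finset V)) (hl : Lin H) (hf : Free74 H) (W W' : V → V → ℝ)
    (hW : ∀ s t, 0 ≤ W s t ∧ W s t ≤ 1) (hW' : ∀ s t, 0 ≤ W' s t ∧ W' s t ≤ 1)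
    (hWs : ∀ s t, W s t = W t s) (M L : ℝ)
    (hcut : ∀ f g : V → ℝ, (∀ t, 0 ≤ f t ∧ f t ≤ 1) → (∀ t, 0 ≤ g t ∧ g t ≤ 1) →
      |∑ s, ∑ t, f s * (adj H s t - W s t) * g t| ≤ M)
    (hL : ∑ x, ∑ y, |W x y - W' x y| ≤ L) :
    tri W' ≤ (1 / 4) * che W' + (Fintype.card V : ℝ) ^ 2
      + (7 / 2) * (Fintype.card V : ℝ) * (M + L) := by
  have h1 := few_triangles H hl hf
  have h2 := count_triangles (adj H) W (adj_bounds' H) hW (adj_comm H) hWs M hcut
  have h3 := count_cherries (adj H) W (adj_bounds' H) hW (adj_comm H) hWs M hcut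
  have h4 := l1_triangles W W' hW hW'
  have h5 := l1_cherries W W' hW hW'
  have hn : (0 : ℝ) ≤ Fintype.card V := Nat.cast_nonneg _
  have h6 : 3 * (Fintype.card V : ℝ) * ∑ x, ∑ y, |W x y - W' x y| ≤ 3 * (Fintype.card V : ℝ) * L :=
    mul_le_mul_of_nonneg_left hL (by positivity)
  have h7 : 2 * (Fintype.card V : ℝ) * ∑ x, ∑ y, |W x y - W' x y| ≤ 2 * (Fintype.card V : ℝ) * L :=
    mul_le_mul_of_nonneg_left hL (by positivity)
  have a2 := abs_le.1 h2
  have a3 := abs_le.1 h3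
  have a4 := abs_le.1 h4
  have a5 := abs_le.1 h5
  unfold tri che
  nlinarith [a2.1, a2.2, a3.1, a3.2, a4.1, a4.2, a5.1, a5.2]

theorem e2 (h : V → V → ℝ) (hs : ∀ s t, h s t = h t s) :
    tri (fun x y => (1 - h x y) / 2) = (1 / 8) * ((Fintype.card V : ℝ) ^ 3
      - 3 * (Fintype.card V : ℝ) * (∑ x, ∑ y, h x y) + 3 * che h - tri h) := by
  have hc1 : ∑ x, ∑ y, ∑ z, h x y * h x z = che h := by
    unfold che
    refine sum_congr rfl fun x _ => ?_
    rw [sq, sum_mul_sum]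
  have hc2 : ∑ x, ∑ y, ∑ z, h x y * h y z = che h := by
    rw [sum_comm, ← hc1]
    refine sum_congr rfl fun x _ => sum_congr rfl fun y _ => sum_congr rfl fun z _ => ?_
    rw [hs y x]
  have hc3 : ∑ x, ∑ y, ∑ z, h x z * h y z = che h := by
    rw [← hc1]
    rw [show ∑ x, ∑ y, ∑ z, h x z * h y z = ∑ x, ∑ z, ∑ y, h x z * h y z from
      sum_congr rfl fun x _ => sum_comm]
    rw [sum_comm]
    refine sum_congr rfl fun x _ => sum_congr rfl fun y _ => sum_congr rfl fun z _ => ?_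
    rw [hs y x, hs z x]
  have q1 : ∑ x : V, ∑ y : V, ∑ _z : V, h x y = (Fintype.card V : ℝ) * ∑ x, ∑ y, h x y := by
    simp only [sum_const, card_univ, nsmul_eq_mul, mul_sum]
  have q2 : ∑ x : V, ∑ _y : V, ∑ z : V, h x z = (Fintype.card V : ℝ) * ∑ x, ∑ y, h x y := by
    simp only [sum_const, card_univ, nsmul_eq_mul, mul_sum]
  have q3 : ∑ _x : V, ∑ y : V, ∑ z : V, h y z = (Fintype.card V : ℝ) * ∑ x, ∑ y, h x y := by
    simp only [sum_const, card_univ, nsmul_eq_mul, mul_sum]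
  have q0 : ∑ _x : V, ∑ _y : V, ∑ _z : V, (1 : ℝ) = (Fintype.card V : ℝ) ^ 3 := by
    simp only [sum_const, card_univ, nsmul_eq_mul, mul_one]
    ring
  have key : tri (fun x y => (1 - h x y) / 2) = (1 / 8) *
      (∑ _x : V, ∑ _y : V, ∑ _z : V, (1 : ℝ) - ∑ x : V, ∑ y : V, ∑ _z : V, h x y
        - ∑ x : V, ∑ _y : V, ∑ z : V, h x z - ∑ _x : V, ∑ y : V, ∑ z : V, h y z
        + ∑ x, ∑ y, ∑ z, h x y * h x z + ∑ x, ∑ y, ∑ z, h x y * h y z
        + ∑ x, ∑ y, ∑ z, h x z * h y z - tri h) := by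
    unfold tri
    simp only [← sum_sub_distrib, ← sum_add_distrib, mul_sum]
    refine sum_congr rfl fun x _ => sum_congr rfl fun y _ => sum_congr rfl fun z _ => ?_
    ring
  rw [key, hc1, hc2, hc3, q0, q1, q2, q3]
  ring

theorem e3 (h : V → V → ℝ) :
    che (fun x y => (1 - h x y) / 2) = (1 / 4) * ((Fintype.card V : ℝ) ^ 3
      - 2 * (Fintype.card V : ℝ) * (∑ x, ∑ y, h x y) + che h) := by
  unfold che
  have h1 : ∀ x, ∑ y, (1 - h x y) / 2 = ((Fintype.card V : ℝ) - ∑ y, h x y) / 2 := by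
    intro x
    rw [← sum_div, sum_sub_distrib]
    simp
  simp only [h1]
  have h2 : ∑ _x : V, (Fintype.card V : ℝ) ^ 2 = (Fintype.card V : ℝ) ^ 3 := by
    simp only [sum_const, card_univ, nsmul_eq_mul]
    ring
  rw [← h2, mul_sum (s := univ) (f := fun x => ∑ y, h x y), ← sum_sub_distrib, ← sum_add_distrib, mul_sum]
  refine sum_congr rfl fun x _ => ?_
  ring


theorem e4 (c : V → ℕ) (K : ℕ) (hc : ∀ s, c s < K) (W : V → V → ℝ) (δn γ : ℝ) (hδ : 0 ≤ δn)
    (hγ : 0 ≤ γ)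
    (hW : ∀ s t, W s t ≤ 1)
    (hlarge : ∀ x y, δn ≤ ((univ.filter (fun u => c u = c x)).card : ℝ) →
      δn ≤ ((univ.filter (fun u => c u = c y)).card : ℝ) → W x y ≤ 1 / 2 + γ) :
    ∑ x, ∑ y, max 0 (W x y - 1 / 2)
      ≤ (γ * (Fintype.card V : ℝ) + K * δn) * (Fintype.card V : ℝ) := by
  classical
  set sm : V → Prop := fun x => ((univ.filter (fun u => c u = c x)).card : ℝ) < δn with hsm
  have hcard : ((univ.filter sm).card : ℝ) ≤ K * δn := by
    have h1 : (univ.filter sm).card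
        = ∑ i ∈ range K, ((univ.filter sm).filter (fun x => c x = i)).card :=
      card_eq_sum_card_fiberwise (fun x _ => by simpa using hc x)
    rw [h1]
    push_cast
    calc ∑ i ∈ range K, (((univ.filter sm).filter (fun x => c x = i)).card : ℝ)
        ≤ ∑ _i ∈ range K, δn := by
          refine sum_le_sum fun i _ => ?_
          rcases ((univ.filter sm).filter (fun x => c x = i)).eq_empty_or_nonempty with h | ⟨x, hx⟩
          · rw [h]; simpa using hδ
          · simp only [mem_filter, mem_univ, true_and] at hx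
            have h2 : ((univ.filter sm).filter (fun x => c x = i)).card
                ≤ (univ.filter (fun u => c u = c x)).card := by
              refine card_le_card fun u hu => ?_
              simp only [mem_filter, mem_univ, true_and] at hu ⊢
              rw [hu.2, hx.2]
            exact le_trans (by exact_mod_cast h2) (le_of_lt hx.1)
      _ = K * δn := by simp
  have hpt : ∀ x y, max 0 (W x y - 1 / 2)
      ≤ γ + (1 / 2) * (if sm x then 1 else 0) + (1 / 2) * (if sm y then 1 else 0) := by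
    intro x y
    have hw := hW x y
    by_cases hx : sm x
    · rw [if_pos hx]
      refine max_le ?_ ?_
      · split_ifs <;> linarith
      · split_ifs <;> linarith
    · by_cases hy : sm y
      · rw [if_pos hy, if_neg hx]
        refine max_le ?_ ?_ <;> linarith
      · rw [if_neg hx, if_neg hy]
        have := hlarge x y (not_lt.1 hx) (not_lt.1 hy)
        refine max_le ?_ ?_ <;> linarith
  have hsum : ∑ x : V, (if sm x then (1 : ℝ) else 0) = ((univ.filter sm).card : ℝ) := by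
    rw [sum_ite, sum_const_zero, add_zero, sum_const, nsmul_eq_mul, mul_one]
  have hn : (0 : ℝ) ≤ Fintype.card V := Nat.cast_nonneg _
  calc ∑ x, ∑ y, max 0 (W x y - 1 / 2)
      ≤ ∑ x : V, ∑ y : V, (γ + (1 / 2) * (if sm x then 1 else 0)
        + (1 / 2) * (if sm y then 1 else 0)) :=
        sum_le_sum fun x _ => sum_le_sum fun y _ => hpt x y
    _ = γ * (Fintype.card V : ℝ) ^ 2 + (Fintype.card V : ℝ) * ((univ.filter sm).card : ℝ) := by
        simp only [sum_add_distrib, ← mul_sum, hsum, sum_const, card_univ, nsmul_eq_mul]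
        ring
    _ ≤ (γ * (Fintype.card V : ℝ) + K * δn) * (Fintype.card V : ℝ) := by
        nlinarith [mul_le_mul_of_nonneg_left hcard hn]

/-- pointwise normalisation -/
theorem e5 (w : Fin 3 → ℝ) (h1 : ∑ i, w i ≤ 1) :
    ∃ h : Fin 3 → ℝ, h = (fun i => max 0 (1 - 2 * w i) / ∑ j, max 0 (1 - 2 * w j)) ∧
      (∀ i, 0 ≤ h i) ∧ ∑ i, h i = 1 ∧
      ∀ i, |w i - (1 - h i) / 2| ≤ max 0 (w i - 1 / 2) + (1 - ∑ j, w j)
        + ∑ j, max 0 (w j - 1 / 2) := by
  set s := ∑ j, max 0 (1 - 2 * w j) with hs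
  have key : ∀ j, max 0 (1 - 2 * w j) = 1 - 2 * w j + 2 * max 0 (w j - 1 / 2) := by
    intro j
    rcases le_total (w j) (1 / 2) with h | h
    · rw [max_eq_right (by linarith), max_eq_left (by linarith)]; ring
    · rw [max_eq_left (by linarith), max_eq_right (by linarith)]; ring
  have hs' : s = 3 - 2 * ∑ j, w j + 2 * ∑ j, max 0 (w j - 1 / 2) := by
    rw [hs, sum_congr rfl fun j _ => key j, sum_add_distrib, sum_sub_distrib, ← mul_sum, ← mul_sum]
    simp
  have hE : 0 ≤ ∑ j, max 0 (w j - 1 / 2) := sum_nonneg fun j _ => le_max_left _ _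
  have hs1 : 1 ≤ s := by rw [hs']; linarith
  have hspos : 0 < s := by linarith
  refine ⟨_, rfl, fun i => div_nonneg (le_max_left _ _) hspos.le, ?_, fun i => ?_⟩
  · rw [← sum_div, div_self hspos.ne']
  · have hle : max 0 (1 - 2 * w i) ≤ s :=
      single_le_sum (f := fun j => max 0 (1 - 2 * w j)) (fun j _ => le_max_left _ _) (mem_univ i)
    have h0 : 0 ≤ max 0 (1 - 2 * w i) := le_max_left _ _
    have hd : max 0 (1 - 2 * w i) / s ≤ max 0 (1 - 2 * w i) := div_le_self h0 hs1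
    have hd2 : max 0 (1 - 2 * w i) - (s - 1) ≤ max 0 (1 - 2 * w i) / s := by
      rw [le_div_iff₀ hspos]
      nlinarith
    have k := key i
    have h00 : 0 ≤ max 0 (w i - 1 / 2) := le_max_left _ _
    rw [abs_le]
    constructor <;> nlinarith


theorem seven_three : ∃ ε : ℝ, 0 < ε ∧ ∃ n₀ : ℕ, ∀ n : ℕ, n₀ ≤ n →
    ∀ T : Finset (Finset (Fin n)), Lin T → (1 / 6 - ε) * (n : ℝ) ^ 2 ≤ (T.card : ℝ) →
      ∀ H : Fin 3 → Finset (Finset (Fin n)), (∀ i, H i ⊆ T) → (∀ i j, i ≠ j → Disjoint (H i) (H j)) →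
        (T = univ.biUnion H) → ¬ ∀ i, Free74 (H i) := by
  obtain ⟨K, hosr⟩ := osr (1 / 100000) (by norm_num) 1
  obtain ⟨n₁, hc1⟩ := c1 (1 / (100000 * ((K : ℝ) + 1))) (1 / 100000) (by positivity) (by norm_num)
  refine ⟨1 / 100000, by norm_num, max n₁ 1000, ?_⟩
  intro n hn T hT hcard H hsub hdis hun hfree
  have hn1 : n₁ ≤ n := le_trans (le_max_left _ _) hn
  have hn2 : 1000 ≤ n := le_trans (le_max_right _ _) hn
  have hN : (1000 : ℝ) ≤ n := by exact_mod_cast hn2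
  have hcV : (Fintype.card (Fin n) : ℝ) = n := by simp
  have hlin : ∀ i, Lin (H i) := fun i =>
    ⟨fun h hh => hT.card3 h (hsub i hh), fun h hh k hk => hT.lin h (hsub i hh) k (hsub i hk)⟩
  obtain ⟨c, hcK, -, hreg⟩ := hosr (α := Fin n) (β := Fin 3 × Fin n) univ univ
    (fun s p => adj (H p.1) s p.2) (fun s p => adj_bounds' _ _ _) (fun _ => 0)
    (fun _ => Nat.one_pos)
  have hcardα : ((univ : Finset (Fin n)).card : ℝ) = n := by simp
  have hcardβ : ((univ : Finset (Fin 3 × Fin n)).card : ℝ) = 3 * n := by simp [card_univ]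
  have hreg' : ∀ i, ∀ g : Fin n → ℝ, (∀ t, 0 ≤ g t ∧ g t ≤ 1) →
      ∑ s, |∑ t, adj (H i) s t * g t - ce univ c (fun u => ∑ t, adj (H i) u t * g t) s|
        ≤ (3 / 100000) * (n : ℝ) ^ 2 := by
    intro i g hg
    have h1 := hreg (fun p => if p.1 = i then g p.2 else 0) (fun p => by
      split_ifs
      · exact hg _
      · exact ⟨le_refl _, zero_le_one⟩)
    have h2 : ∀ s, ∑ p : Fin 3 × Fin n, adj (H p.1) s p.2 * (if p.1 = i then g p.2 else 0)
        = ∑ t, adj (H i) s t * g t := by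
      intro s
      rw [Fintype.sum_prod_type, Finset.sum_eq_single i]
      · simp
      · intro j _ hj
        simp [hj]
      · simp
    simp only [h2] at h1
    rw [hcardα, hcardβ] at h1
    linarith
  have hAs : ∀ i (s t : Fin n), adj (H i) s t = adj (H i) t s := fun i => adj_comm (H i)
  set W : Fin 3 → Fin n → Fin n → ℝ := fun i => stepf c (adj (H i)) with hWdef
  have hW : ∀ i s t, 0 ≤ W i s t ∧ W i s t ≤ 1 := fun i => stepf_bounds c _ (adj_bounds' (H i))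
  have hWs : ∀ i s t, W i s t = W i t s := fun i => stepf_symm c _ (hAs i)
  have hWadd : ∀ x y, ∑ i, W i x y ≤ 1 :=
    stepf_add_le c (fun i => adj (H i)) (adj_add_le T hT H hsub hdis)
  have hcut : ∀ i, ∀ f g : Fin n → ℝ, (∀ t, 0 ≤ f t ∧ f t ≤ 1) → (∀ t, 0 ≤ g t ∧ g t ≤ 1) →
      |∑ s, ∑ t, f s * (adj (H i) s t - W i s t) * g t| ≤ (6 / 100000) * (n : ℝ) ^ 2 := by
    intro i f g hf hg
    have := cut_close c (adj (H i)) (adj_bounds' (H i)) (hAs i) _ (hreg' i) f g hf hg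
    linarith
  -- the positive part of `W - 1/2`
  have hE : ∀ i, ∑ x, ∑ y, max 0 (W i x y - 1 / 2) ≤ (2 / 100000) * (n : ℝ) ^ 2 := by
    intro i
    have h1 := e4 c K hcK (W i) (1 / (100000 * ((K : ℝ) + 1)) * n) (1 / 100000) (by positivity)
      (by norm_num) (fun s t => (hW i s t).2) (by
        intro x y hx hy
        have h2 := hc1 n hn1 (H i) (hlin i) (hfree i) _ _ hx hy
        have hxp : 0 < ((univ.filter (fun u => c u = c x)).card : ℝ) := by
          exact_mod_cast card_pos.2 ⟨x, by simp⟩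
        have hyp : 0 < ((univ.filter (fun u => c u = c y)).card : ℝ) := by
          exact_mod_cast card_pos.2 ⟨y, by simp⟩
        show stepf c (adj (H i)) x y ≤ _
        rw [stepf_eq, div_le_iff₀ (mul_pos hxp hyp)]
        exact h2)
    rw [hcV] at h1
    have hK : (K : ℝ) * (1 / (100000 * ((K : ℝ) + 1)) * n) ≤ 1 / 100000 * n := by
      have hKK : (K : ℝ) * (1 / (100000 * ((K : ℝ) + 1))) ≤ 1 / 100000 := by
        rw [mul_one_div, div_le_iff₀ (by positivity)]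
        nlinarith [(Nat.cast_nonneg K : (0 : ℝ) ≤ K)]
      nlinarith
    nlinarith
  have hsumW : ∑ x, ∑ y, ∑ j, W j x y ≥ (1 - 6 / 100000) * (n : ℝ) ^ 2 := by
    have h1 : ∑ x, ∑ y, ∑ j, W j x y = ∑ j, ∑ x, ∑ y, W j x y := by
      rw [show ∑ x, ∑ y, ∑ j, W j x y = ∑ x, ∑ j, ∑ y, W j x y from
        sum_congr rfl fun x _ => sum_comm, sum_comm]
    have h2 : ∀ j, ∑ x, ∑ y, W j x y = 6 * ((H j).card : ℝ) := by
      intro j
      rw [← sum_adj (H j) (hlin j)]
      exact stepf_sum c (adj (H j))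
    have h3 : (T.card : ℝ) = ∑ j, ((H j).card : ℝ) := by
      rw [hun, card_biUnion (fun i _ j _ hij => hdis i j hij)]
      push_cast
      rfl
    rw [h1, sum_congr rfl fun j _ => h2 j, ← mul_sum, ← h3]
    linarith
  -- the kernels `h`
  set h : Fin 3 → Fin n → Fin n → ℝ := fun i x y =>
    max 0 (1 - 2 * W i x y) / ∑ j, max 0 (1 - 2 * W j x y) with hhdef
  have hh : ∀ x y, (∀ i, 0 ≤ h i x y) ∧ ∑ i, h i x y = 1 ∧
      ∀ i, |W i x y - (1 - h i x y) / 2| ≤ max 0 (W i x y - 1 / 2) + (1 - ∑ j, W j x y)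
        + ∑ j, max 0 (W j x y - 1 / 2) := by
    intro x y
    obtain ⟨k, hk, h1, h2, h3⟩ := e5 (fun i => W i x y) (hWadd x y)
    have hk' : ∀ i, k i = h i x y := fun i => by rw [hk]
    simp only [hk'] at h1 h2 h3
    exact ⟨h1, h2, h3⟩
  have h0 : ∀ i x y, 0 ≤ h i x y := fun i x y => (hh x y).1 i
  have h1 : ∀ x y, ∑ i, h i x y = 1 := fun x y => (hh x y).2.1
  have hle : ∀ i x y, h i x y ≤ 1 := fun i x y => by
    rw [← h1 x y]
    exact single_le_sum (f := fun i => h i x y) (fun j _ => h0 j x y) (mem_univ i)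
  have hs : ∀ i x y, h i x y = h i y x := by
    intro i x y
    simp only [hhdef, hWs _ x y]
  have hL : ∀ i, ∑ x, ∑ y, |W i x y - (1 - h i x y) / 2| ≤ (14 / 100000) * (n : ℝ) ^ 2 := by
    intro i
    have a1 : ∑ x, ∑ y, |W i x y - (1 - h i x y) / 2| ≤ ∑ x, ∑ y, (max 0 (W i x y - 1 / 2)
        + (1 - ∑ j, W j x y) + ∑ j, max 0 (W j x y - 1 / 2)) :=
      sum_le_sum fun x _ => sum_le_sum fun y _ => (hh x y).2.2 i
    have a2 : ∑ x, ∑ y, (max 0 (W i x y - 1 / 2) + (1 - ∑ j, W j x y)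
          + ∑ j, max 0 (W j x y - 1 / 2))
        = ∑ x, ∑ y, max 0 (W i x y - 1 / 2) + ((n : ℝ) ^ 2 - ∑ x, ∑ y, ∑ j, W j x y)
          + ∑ x, ∑ y, ∑ j, max 0 (W j x y - 1 / 2) := by
      have a3 : ∑ _x : Fin n, ∑ _y : Fin n, (1 : ℝ) = (n : ℝ) ^ 2 := by
        simp only [sum_const, card_univ, nsmul_eq_mul, mul_one, Fintype.card_fin]
        ring
      rw [← a3]
      simp only [← sum_sub_distrib, ← sum_add_distrib]
    have a4 : ∑ x, ∑ y, ∑ j, max 0 (W j x y - 1 / 2) = ∑ j, ∑ x, ∑ y, max 0 (W j x y - 1 / 2) := by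
      rw [show ∑ x, ∑ y, ∑ j, max 0 (W j x y - 1 / 2) = ∑ x, ∑ j, ∑ y, max 0 (W j x y - 1 / 2) from
        sum_congr rfl fun x _ => sum_comm, sum_comm]
    have a5 : ∑ j, ∑ x, ∑ y, max 0 (W j x y - 1 / 2) ≤ ∑ _j : Fin 3, (2 / 100000) * (n : ℝ) ^ 2 :=
      sum_le_sum fun j _ => hE j
    have a6 := hE i
    simp only [sum_const, card_univ, nsmul_eq_mul, Fintype.card_fin] at a5
    push_cast at a5
    rw [a2, a4] at a1
    linarith
  have hmain : ∀ i, (n : ℝ) ^ 3 - 4 * n * (∑ x, ∑ y, h i x y) + 5 * che (h i) - 2 * tri (h i)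
      ≤ 16 * (n : ℝ) ^ 2 + (112 / 10000) * (n : ℝ) ^ 3 := by
    intro i
    have b1 := e1 (H i) (hlin i) (hfree i) (W i) (fun x y => (1 - h i x y) / 2) (hW i)
      (fun x y => ⟨by linarith [hle i x y], by linarith [h0 i x y]⟩) (hWs i) _ _ (hcut i) (hL i)
    rw [e2 (h i) (hs i), e3 (h i), hcV] at b1
    nlinarith
  have hQ : ∑ i, ∑ x, ∑ y, h i x y = (n : ℝ) ^ 2 := by
    have c1 : ∑ i, ∑ x, ∑ y, h i x y = ∑ x, ∑ y, ∑ i, h i x y := by
      rw [sum_comm]
      exact sum_congr rfl fun x _ => sum_comm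
    rw [c1]
    simp only [h1, sum_const, card_univ, nsmul_eq_mul, mul_one, Fintype.card_fin]
    ring
  have halg := alg h h0 hs h1
  rw [hcV] at halg
  have hsum3 : ∑ i, ((n : ℝ) ^ 3 - 4 * n * (∑ x, ∑ y, h i x y) + 5 * che (h i) - 2 * tri (h i))
      ≤ ∑ _i : Fin 3, (16 * (n : ℝ) ^ 2 + (112 / 10000) * (n : ℝ) ^ 3) :=
    sum_le_sum fun i _ => hmain i
  have hsum4 : ∑ i, ((n : ℝ) ^ 3 - 4 * n * (∑ x, ∑ y, h i x y) + 5 * che (h i) - 2 * tri (h i))
      = 3 * (n : ℝ) ^ 3 - 4 * n * (n : ℝ) ^ 2 + ∑ i, (5 * ∑ x, (∑ y, h i x y) ^ 2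
        - 2 * ∑ x, ∑ y, ∑ z, h i x y * h i x z * h i y z) := by
    rw [← hQ]
    simp only [che, tri, Fin.sum_univ_three]
    ring
  rw [hsum4] at hsum3
  simp only [sum_const, card_univ, nsmul_eq_mul, Fintype.card_fin] at hsum3
  push_cast at hsum3
  have hfin : (n : ℝ) ^ 2 * 1000 ≤ (n : ℝ) ^ 3 := by
    nlinarith [sq_nonneg (n : ℝ)]
  have hpos : (0 : ℝ) < (n : ℝ) ^ 3 := by positivity
  nlinarith

end FINAL

end Pool.Agent.Lib.MP_c82047_co18.Seven
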