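import Pool.Agent.Lib.MP_c82047_co18.Seven.Defs

/-!
# The local lemma for linear (7,4)-free triple systems
-/

namespace Pool.Agent.Lib.MP_c82047_co18.Seven

open Finset

section LOC

variable {V : Type*} [DecidableEq V]

/-- Two triples through `x` have at most one adjacent cross pair. -/
theorem loc_two (H : Finset (Finset V)) (hl : Lin H) (hf : Free74 H) (L L' : Finset V)
    (hL : L ∈ H) (hL' : L' ∈ H) (x : V) (hx : x ∈ L) (hx' : x ∈ L') (hne : L ≠ L')
    (p q p' q' : V) (hp : p ∈ L) (hpx : p ≠ x) (hq : q ∈ L) (hqx : q ≠ x) (hp' : p' ∈ L')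
    (hpx' : p' ≠ x) (hq' : q' ∈ L') (hqx' : q' ≠ x) (hpq : p ≠ q ∨ p' ≠ q')
    (h k : Finset V) (hh : h ∈ H) (hk : k ∈ H) (h1 : p ∈ h) (h2 : p' ∈ h) (h3 : q ∈ k)
    (h4 : q' ∈ k) : False := by
  have hint : ∀ y, y ∈ L → y ∈ L' → y = x := by
    intro y hy hy'
    exact Finset.card_le_one.1 (hl.lin L hL L' hL' hne) y (mem_inter.2 ⟨hy, hy'⟩) x
      (mem_inter.2 ⟨hx, hx'⟩)
  have hp1 : p ∉ L' := fun h => hpx (hint p hp h)
  have hq1 : q ∉ L' := fun h => hqx (hint q hq h)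
  have hp2 : p' ∉ L := fun h => hpx' (hint p' h hp')
  have hq2 : q' ∉ L := fun h => hqx' (hint q' h hq')
  have e1 : h ≠ L := fun e => hp2 (e ▸ h2)
  have e2 : h ≠ L' := fun e => hp1 (e ▸ h1)
  have e3 : k ≠ L := fun e => hq2 (e ▸ h4)
  have e4 : k ≠ L' := fun e => hq1 (e ▸ h3)
  have e5 : h ≠ k := by
    intro e
    rcases hpq with hpq | hpq
    · exact hpq (Finset.card_le_one.1 (hl.lin h hh L hL e1) p (mem_inter.2 ⟨h1, hp⟩) q
        (mem_inter.2 ⟨e ▸ h3, hq⟩))
    · exact hpq (Finset.card_le_one.1 (hl.lin h hh L' hL' e2) p' (mem_inter.2 ⟨h2, hp'⟩) q'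
        (mem_inter.2 ⟨e ▸ h4, hq'⟩))
  have npp : p ≠ p' := fun e => hp1 (e ▸ hp')
  have nqq : q ≠ q' := fun e => hq1 (e ▸ hq')
  have c1 : (L ∪ L').card ≤ 5 := by
    have h5 := card_union_add_card_inter L L'
    have h6 : 0 < (L ∩ L').card := card_pos.2 ⟨x, mem_inter.2 ⟨hx, hx'⟩⟩
    have h7 := hl.card3 L hL
    have h8 := hl.card3 L' hL'
    omega
  have c2 : (L ∪ L' ∪ h).card ≤ 6 := by
    have h5 := card_union_add_card_inter (L ∪ L') h
    have h6 : 1 < ((L ∪ L') ∩ h).card := one_lt_card.2 ⟨p, by simp [hp, h1], p',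
      by simp [hp', h2], npp⟩
    have h7 := hl.card3 h hh
    omega
  have c3 : (L ∪ L' ∪ h ∪ k).card ≤ 7 := by
    have h5 := card_union_add_card_inter (L ∪ L' ∪ h) k
    have h6 : 1 < ((L ∪ L' ∪ h) ∩ k).card := one_lt_card.2 ⟨q, by simp [hq, h3], q',
      by simp [hq', h4], nqq⟩
    have h7 := hl.card3 k hk
    omega
  have c4 := hf _ c3
  have hsub : ({L, L', h, k} : Finset (Finset V)) ⊆
      H.filter (fun g => g ⊆ L ∪ L' ∪ h ∪ k) := by
    intro g hg
    simp only [mem_insert, mem_singleton] at hg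
    rw [mem_filter]
    rcases hg with rfl | rfl | rfl | rfl
    · exact ⟨hL, fun y hy => by simp [hy]⟩
    · exact ⟨hL', fun y hy => by simp [hy]⟩
    · exact ⟨hh, fun y hy => by simp [hy]⟩
    · exact ⟨hk, fun y hy => by simp [hy]⟩
  have c5 : ({L, L', h, k} : Finset (Finset V)).card = 4 := by
    rw [card_insert_of_notMem, card_insert_of_notMem, card_insert_of_notMem, card_singleton]
    · simpa using e5
    · simp only [mem_insert, mem_singleton, not_or]
      exact ⟨e2.symm, e4.symm⟩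
    · simp only [mem_insert, mem_singleton, not_or]
      exact ⟨hne, e1.symm, e3.symm⟩
  have := card_le_card hsub
  omega

/-- The points of a triple are different. -/
theorem loc_ne (H : Finset (Finset V)) (hl : Lin H) (a b c : V)
    (hm : ({a, b, c} : Finset V) ∈ H) : a ≠ b ∧ a ≠ c ∧ b ≠ c := by
  have h3 := hl.card3 _ hm
  refine ⟨?_, ?_, ?_⟩
  · rintro rfl
    have : ({a, a, c} : Finset V).card ≤ 2 := by
      rw [Finset.insert_idem]; exact card_le_two
    omega
  · rintro rfl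
    have : ({a, b, a} : Finset V).card ≤ 2 := by
      rw [Finset.pair_comm b a, Finset.insert_idem]; exact card_le_two
    omega
  · rintro rfl
    have : ({a, b, b} : Finset V).card ≤ 2 := by
      rw [Finset.pair_eq_singleton]; exact card_le_two
    omega

theorem loc_cases (H : Finset (Finset V)) (a b : V) :
    adj H a b = 0 ∨ (adj H a b = 1 ∧ ∃ h ∈ H, a ∈ h ∧ b ∈ h) := by
  unfold adj
  split_ifs with h
  · exact Or.inr ⟨rfl, h.2⟩
  · exact Or.inl rfl

theorem loc (H : Finset (Finset V)) (hl : Lin H) (hf : Free74 H) (x s t s' t' : V)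
    (h : ({x, s, t} : Finset V) ∈ H) (h' : ({x, s', t'} : Finset V) ∈ H)
    (hne : ({x, s, t} : Finset V) ≠ {x, s', t'}) :
    adj H s s' + adj H s t' + adj H t s' + adj H t t' ≤ 1 := by
  obtain ⟨n1, n2, n3⟩ := loc_ne H hl _ _ _ h
  obtain ⟨n1', n2', n3'⟩ := loc_ne H hl _ _ _ h'
  have key := loc_two H hl hf _ _ h h' x (by simp) (by simp) hne
  have ks : s ∈ ({x, s, t} : Finset V) := by simp
  have kt : t ∈ ({x, s, t} : Finset V) := by simp
  have ks' : s' ∈ ({x, s', t'} : Finset V) := by simp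
  have kt' : t' ∈ ({x, s', t'} : Finset V) := by simp
  rcases loc_cases H s s' with a1 | ⟨a1, k1, hk1, m1, m1'⟩
  · rcases loc_cases H s t' with a2 | ⟨a2, k2, hk2, m2, m2'⟩
    · rcases loc_cases H t s' with a3 | ⟨a3, k3, hk3, m3, m3'⟩
      · rcases loc_cases H t t' with a4 | ⟨a4, -⟩ <;> rw [a1, a2, a3, a4] <;> norm_num
      · rcases loc_cases H t t' with a4 | ⟨a4, k4, hk4, m4, m4'⟩
        · rw [a1, a2, a3, a4]; norm_num
        · exact (key t t s' t' kt n2.symm kt n2.symm ks' n1'.symm kt' n2'.symm (Or.inr n3')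
            k3 k4 hk3 hk4 m3 m3' m4 m4').elim
    · rcases loc_cases H t s' with a3 | ⟨a3, k3, hk3, m3, m3'⟩
      · rcases loc_cases H t t' with a4 | ⟨a4, k4, hk4, m4, m4'⟩
        · rw [a1, a2, a3, a4]; norm_num
        · exact (key s t t' t' ks n1.symm kt n2.symm kt' n2'.symm kt' n2'.symm (Or.inl n3)
            k2 k4 hk2 hk4 m2 m2' m4 m4').elim
      · exact (key s t t' s' ks n1.symm kt n2.symm kt' n2'.symm ks' n1'.symm (Or.inl n3)
            k2 k3 hk2 hk3 m2 m2' m3 m3').elim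
  · rcases loc_cases H s t' with a2 | ⟨a2, k2, hk2, m2, m2'⟩
    · rcases loc_cases H t s' with a3 | ⟨a3, k3, hk3, m3, m3'⟩
      · rcases loc_cases H t t' with a4 | ⟨a4, k4, hk4, m4, m4'⟩
        · rw [a1, a2, a3, a4]; norm_num
        · exact (key s t s' t' ks n1.symm kt n2.symm ks' n1'.symm kt' n2'.symm (Or.inl n3)
            k1 k4 hk1 hk4 m1 m1' m4 m4').elim
      · exact (key s t s' s' ks n1.symm kt n2.symm ks' n1'.symm ks' n1'.symm (Or.inl n3)
            k1 k3 hk1 hk3 m1 m1' m3 m3').elim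
    · exact (key s s s' t' ks n1.symm ks n1.symm ks' n1'.symm kt' n2'.symm (Or.inr n3')
            k1 k2 hk1 hk2 m1 m1' m2 m2').elim

end LOC

end Pool.Agent.Lib.MP_c82047_co18.Seven
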