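import Pool.Agent.Lib.MP_c82047_co18.Seven.CE

/-!
# One-sided weak regularity lemma (module OSR)
-/

namespace Pool.Agent.Lib.MP_c82047_co18.Seven

open Finset

section OSR

/-- the energy of a colouring for the matrix `A` -/
noncomputable def enrg {α β : Type} (S : Finset α) (T : Finset β) (A : α → β → ℝ)
    (c : α → ℕ) : ℝ :=
  ∑ t ∈ T, ∑ s ∈ S, (ce S c (fun u => A u t) s) ^ 2

theorem enrg_nonneg {α β : Type} (S : Finset α) (T : Finset β) (A : α → β → ℝ)
    (c : α → ℕ) : 0 ≤ enrg S T A c :=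
  Finset.sum_nonneg fun _ _ => Finset.sum_nonneg fun _ _ => sq_nonneg _

theorem enrg_le {α β : Type} (S : Finset α) (T : Finset β) (A : α → β → ℝ)
    (hA : ∀ s t, 0 ≤ A s t ∧ A s t ≤ 1) (c : α → ℕ) : enrg S T A c ≤ S.card * T.card := by
  unfold enrg
  calc ∑ t ∈ T, ∑ s ∈ S, (ce S c (fun u => A u t) s) ^ 2
      ≤ ∑ t ∈ T, ∑ s ∈ S, (1 : ℝ) := by
        refine Finset.sum_le_sum fun t _ => Finset.sum_le_sum fun s _ => ?_
        have h0 := ce_nonneg S c (fun u => A u t) (fun u _ => (hA u t).1) s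
        have h1 := ce_le_one S c (fun u => A u t) (fun u _ => (hA u t).2) s
        nlinarith
    _ = S.card * T.card := by
        simp only [Finset.sum_const, nsmul_eq_mul, mul_one]
        ring

/-- one step of the energy increment -/
theorem osr_step {α β : Type} (S : Finset α) (T : Finset β) (A : α → β → ℝ) (ε : ℝ)
    (hε : 0 < ε) (K : ℕ) (c : α → ℕ) (hc : ∀ s, c s < K) (g : β → ℝ)
    (hg : ∀ t, 0 ≤ g t ∧ g t ≤ 1)
    (hbad : ε * S.card * T.card <
      ∑ s ∈ S, |∑ t ∈ T, A s t * g t - ce S c (fun u => ∑ t ∈ T, A u t * g t) s|) :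
    ∃ c' : α → ℕ, (∀ s, c' s < 2 * K) ∧ Refines c' c ∧
      enrg S T A c + ε ^ 2 / 4 * (S.card * T.card) < enrg S T A c' := by
  classical
  set ψ : α → ℝ := fun u => ∑ t ∈ T, A u t * g t with hψ
  set D : α → ℝ := fun s => ψ s - ce S c ψ s with hD
  set U : α → ℝ := fun s => if 0 < D s then 1 else 0 with hU
  have hDU : ∀ s, U s = 0 ∨ U s = 1 := by
    intro s
    by_cases h : 0 < D s
    · right; simp [hU, h]
    · left; simp [hU, h]
  let c' : α → ℕ := fun s => 2 * c s + (if 0 < D s then 1 else 0)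
  have hsumD : ∑ s ∈ S, D s = 0 := by
    have := ce_mul_const S c ψ (fun _ => 1) (fun _ _ _ _ _ => rfl)
    simp only [mul_one] at this
    rw [hD, Finset.sum_sub_distrib, this, sub_self]
  have habs : ∑ s ∈ S, |D s| = 2 * ∑ s ∈ S, U s * D s := by
    have : ∀ s ∈ S, |D s| = 2 * (U s * D s) - D s := by
      intro s _
      by_cases h : 0 < D s
      · simp only [hU, h, if_true]
        rw [abs_of_pos h]; ring
      · simp only [hU, h, if_false]
        rw [abs_of_nonpos (not_lt.mp h)]; ring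
    rw [Finset.sum_congr rfl this, Finset.sum_sub_distrib, hsumD, ← Finset.mul_sum, sub_zero]
  have hR : Refines c' c := by
    intro s u h
    simp only [c'] at h
    split_ifs at h <;> omega
  have hcell : ∀ s u, c' s = c' u → U s = U u := by
    intro s u h
    have h1 := hR s u h
    simp only [c', h1] at h
    simp only [hU]
    split_ifs at h ⊢ <;> first | rfl | omega
  refine ⟨c', ?_, hR, ?_⟩
  · intro s
    have := hc s
    simp only [c']
    split_ifs <;> omega
  · have hkey : ∑ s ∈ S, U s * D s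
        = ∑ t ∈ T, ∑ s ∈ S, (U s * g t) *
            (ce S c' (fun u => A u t) s - ce S c (fun u => A u t) s) := by
      have h1 : ∀ s, D s = ∑ t ∈ T, (A s t - ce S c (fun u => A u t) s) * g t := by
        intro s
        simp only [hD, hψ]
        rw [ce_sum T S c (fun t u => A u t) g s, ← Finset.sum_sub_distrib]
        refine Finset.sum_congr rfl fun t _ => by ring
      calc ∑ s ∈ S, U s * D s
          = ∑ s ∈ S, ∑ t ∈ T, U s * ((A s t - ce S c (fun u => A u t) s) * g t) := by
            refine Finset.sum_congr rfl fun s _ => ?_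
            rw [h1 s, Finset.mul_sum]
        _ = ∑ t ∈ T, ∑ s ∈ S, U s * ((A s t - ce S c (fun u => A u t) s) * g t) :=
            Finset.sum_comm
        _ = _ := by
            refine Finset.sum_congr rfl fun t _ => ?_
            have h2 := ce_mul_const S c' (fun u => A u t) U
              (fun s _ u _ h => hcell s u h)
            have h3 : ∑ s ∈ S, U s * ((A s t - ce S c (fun u => A u t) s) * g t)
                = (∑ s ∈ S, A s t * U s - ∑ s ∈ S, ce S c (fun u => A u t) s * U s) * g t := by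
              rw [← Finset.sum_sub_distrib, Finset.sum_mul]
              refine Finset.sum_congr rfl fun s _ => by ring
            rw [h3, ← h2, ← Finset.sum_sub_distrib, Finset.sum_mul]
            refine Finset.sum_congr rfl fun s _ => by ring
    have hCS : (∑ s ∈ S, U s * D s) ^ 2 ≤ (S.card * T.card) *
        (enrg S T A c' - enrg S T A c) := by
      rw [hkey]
      have hprod : ∀ f : β → α → ℝ, ∑ t ∈ T, ∑ s ∈ S, f t s = ∑ p ∈ T ×ˢ S, f p.1 p.2 :=
        fun f => by rw [Finset.sum_product]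
      rw [hprod]
      refine (Finset.sum_mul_sq_le_sq_mul_sq (T ×ˢ S) (fun p => U p.2 * g p.1)
        (fun p => ce S c' (fun u => A u p.1) p.2 - ce S c (fun u => A u p.1) p.2)).trans ?_
      have hE : ∑ p ∈ T ×ˢ S, (ce S c' (fun u => A u p.1) p.2
          - ce S c (fun u => A u p.1) p.2) ^ 2 = enrg S T A c' - enrg S T A c := by
        rw [← hprod (fun t s => (ce S c' (fun u => A u t) s - ce S c (fun u => A u t) s) ^ 2)]
        unfold enrg
        rw [← Finset.sum_sub_distrib]
        exact Finset.sum_congr rfl fun t _ => ce_pyth S c' c hR (fun u => A u t)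
      rw [hE]
      have hE0 : 0 ≤ enrg S T A c' - enrg S T A c := by
        rw [← hE]; exact Finset.sum_nonneg fun _ _ => sq_nonneg _
      refine mul_le_mul_of_nonneg_right ?_ hE0
      calc ∑ p ∈ T ×ˢ S, (U p.2 * g p.1) ^ 2 ≤ ∑ p ∈ T ×ˢ S, (1 : ℝ) := by
            refine Finset.sum_le_sum fun p _ => ?_
            have h0 := (hg p.1).1
            have h1 := (hg p.1).2
            rcases hDU p.2 with h | h <;> rw [h] <;> nlinarith
        _ = S.card * T.card := by
            simp only [Finset.sum_const, nsmul_eq_mul, mul_one, Finset.card_product]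
            push_cast; ring
    rw [show (∑ s ∈ S, |∑ t ∈ T, A s t * g t - ce S c (fun u => ∑ t ∈ T, A u t * g t) s|)
      = ∑ s ∈ S, |D s| from rfl, habs] at hbad
    have hP : (0 : ℝ) ≤ S.card * T.card := by positivity
    have hpos : (0 : ℝ) < S.card * T.card := by
      rcases hP.lt_or_eq with h | h
      · exact h
      · exfalso
        rw [← h, zero_mul] at hCS
        have h2 : ∑ s ∈ S, U s * D s = 0 := by nlinarith [sq_nonneg (∑ s ∈ S, U s * D s)]
        rw [h2, mul_assoc, ← h] at hbad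
        simp at hbad
    have h5 : ε / 2 * (S.card * T.card) < ∑ s ∈ S, U s * D s := by nlinarith
    have h6 : (ε / 2 * (S.card * T.card)) ^ 2 < (S.card * T.card) *
        (enrg S T A c' - enrg S T A c) :=
      lt_of_lt_of_le (pow_lt_pow_left₀ h5 (by positivity) two_ne_zero) hCS
    have h7 : (S.card * T.card : ℝ) * (ε ^ 2 / 4 * (S.card * T.card)) <
        (S.card * T.card) * (enrg S T A c' - enrg S T A c) := by
      calc (S.card * T.card : ℝ) * (ε ^ 2 / 4 * (S.card * T.card))
          = (ε / 2 * (S.card * T.card)) ^ 2 := by ring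
        _ < _ := h6
    have h8 := lt_of_mul_lt_mul_left h7 hP
    linarith

theorem osr (ε : ℝ) (hε : 0 < ε) (K : ℕ) : ∃ K' : ℕ, ∀ {α β : Type} (S : Finset α) (T : Finset β)
    (A : α → β → ℝ), (∀ s t, 0 ≤ A s t ∧ A s t ≤ 1) → ∀ c : α → ℕ, (∀ s, c s < K) →
      ∃ c' : α → ℕ, (∀ s, c' s < K') ∧ Refines c' c ∧
        ∀ g : β → ℝ, (∀ t, 0 ≤ g t ∧ g t ≤ 1) →
          ∑ s ∈ S, |∑ t ∈ T, A s t * g t - ce S c' (fun u => ∑ t ∈ T, A u t * g t) s|
            ≤ ε * S.card * T.card := by
  have key : ∀ m : ℕ, ∀ {α β : Type} (S : Finset α) (T : Finset β)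
      (A : α → β → ℝ), (∀ s t, 0 ≤ A s t ∧ A s t ≤ 1) → ∀ (K : ℕ) (c : α → ℕ), (∀ s, c s < K) →
      (S.card * T.card : ℝ) * (1 - m * (ε ^ 2 / 4)) ≤ enrg S T A c →
      ∃ c' : α → ℕ, (∀ s, c' s < 2 ^ m * K) ∧ Refines c' c ∧
        ∀ g : β → ℝ, (∀ t, 0 ≤ g t ∧ g t ≤ 1) →
          ∑ s ∈ S, |∑ t ∈ T, A s t * g t - ce S c' (fun u => ∑ t ∈ T, A u t * g t) s|
            ≤ ε * S.card * T.card := by
    intro m
    induction m with
    | zero =>
      intro α β S T A hA K c hc hen
      refine ⟨c, by simpa using hc, fun s u h => h, ?_⟩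
      intro g hg
      by_contra hcon
      obtain ⟨c', _, _, h⟩ := osr_step S T A ε hε K c hc g hg (not_le.mp hcon)
      have h1 := enrg_le S T A hA c'
      have h2 : (0 : ℝ) ≤ ε ^ 2 / 4 * (S.card * T.card) := by positivity
      simp only [Nat.cast_zero, zero_mul, sub_zero, mul_one] at hen
      linarith
    | succ m ih =>
      intro α β S T A hA K c hc hen
      by_cases hgood : ∀ g : β → ℝ, (∀ t, 0 ≤ g t ∧ g t ≤ 1) →
          ∑ s ∈ S, |∑ t ∈ T, A s t * g t - ce S c (fun u => ∑ t ∈ T, A u t * g t) s|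
            ≤ ε * S.card * T.card
      · refine ⟨c, fun s => ?_, fun s u h => h, hgood⟩
        calc c s < K := hc s
          _ ≤ 2 ^ (m + 1) * K := Nat.le_mul_of_pos_left K (by positivity)
      · push Not at hgood
        obtain ⟨g, hg, hbad⟩ := hgood
        obtain ⟨c1, hc1, hr1, he1⟩ := osr_step S T A ε hε K c hc g hg hbad
        obtain ⟨c', hc', hr', hg'⟩ := ih S T A hA (2 * K) c1 hc1 (by
          push_cast at hen
          nlinarith)
        refine ⟨c', fun s => ?_, fun s u h => hr1 _ _ (hr' _ _ h), hg'⟩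
        calc c' s < 2 ^ m * (2 * K) := hc' s
          _ = 2 ^ (m + 1) * K := by ring
  obtain ⟨m, hm⟩ := exists_nat_ge (4 / ε ^ 2)
  refine ⟨2 ^ m * K, fun {α β} S T A hA c hc => key m S T A hA K c hc ?_⟩
  have h1 : 1 ≤ m * (ε ^ 2 / 4) := by
    rw [div_le_iff₀ (by positivity)] at hm
    linarith
  have h2 : (S.card * T.card : ℝ) * (1 - m * (ε ^ 2 / 4)) ≤ 0 :=
    mul_nonpos_of_nonneg_of_nonpos (by positivity) (by linarith)
  exact h2.trans (enrg_nonneg S T A c)

end OSR

end Pool.Agent.Lib.MP_c82047_co18.Seven
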